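import Pool.Agent.Lib.P0c8ca5H.Defs
import Pool.Agent.Lib.P0c8ca5G.OmB
import Pool.Agent.Lib.P0c8ca5U.UntB
import Pool.Agent.Lib.P0c8ca5L.ChnB

/-!
# Sums of pair values over cosets

`T1_eq`: if `V ≤ M` are normal and `M = V (stab M σ)` for the chains `σ` with `cS (sup σ) f ≠ 0` then the sum of
`dl p M D f u v` over `u ∈ M x`, `v ∈ M y` is `(M : V) ^ 2` times the sum over `u ∈ V x`, `v ∈ V y`.
`T1_unt`: this holds for `M = h.unt`.
-/

set_option autoImplicit false

namespace Pool.Agent.Lib.P0c8ca5.Cs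

open MonoidAlgebra Ps Bq Zz Hh Gg Un8

variable {p : ℕ} {k : Type*} [Field k] {A : Type*} [Group A]

section grp

variable {R : Type*} [AddCommMonoid R] {V M S : Subgroup A}

open Classical in
theorem sum_coset_aux [Fintype A] {N S : Subgroup A} {x v0 : A} (h0 : v0 ∈ S)
    (h1 : v0 * x⁻¹ ∈ N) (g : A → R) (hg0 : ∀ u, u ∉ S → g u = 0)
    (hg : ∀ m ∈ N ⊓ S, ∀ u ∈ S, g (m * u) = g u) :
    ∑ u ∈ csF N x, g u = Nat.card ↥(N ⊓ S) • g v0 := by
  have e1 : ∑ u ∈ csF N x, g u = ∑ u ∈ (csF N x).filter (fun u => u ∈ S), g u := by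
    rw [Finset.sum_filter]
    apply Finset.sum_congr rfl
    intro u _
    split_ifs with h
    · rfl
    · exact hg0 u h
  have key : ∀ u ∈ (csF N x).filter (fun u => u ∈ S), u * v0⁻¹ ∈ N ⊓ S := by
    intro u hu
    rw [Finset.mem_filter, mem_csF] at hu
    refine ⟨?_, S.mul_mem hu.2 (S.inv_mem h0)⟩
    have e : u * v0⁻¹ = u * x⁻¹ * (v0 * x⁻¹)⁻¹ := by group
    rw [e]
    exact N.mul_mem hu.1 (N.inv_mem h1)
  have e2 : ∑ u ∈ (csF N x).filter (fun u => u ∈ S), g u =
      ∑ u ∈ (csF N x).filter (fun u => u ∈ S), g v0 := by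
    apply Finset.sum_congr rfl
    intro u hu
    have h2 := hg _ (key u hu) v0 h0
    have e : u * v0⁻¹ * v0 = u := by group
    rwa [e] at h2
  rw [e1, e2, Finset.sum_const]
  congr 1
  have h3 : Nat.card ↥(N ⊓ S) = (Finset.univ.filter (fun z : A => z ∈ N ⊓ S)).card := by
    rw [Nat.card_eq_fintype_card, Fintype.card_subtype]
  rw [h3]
  refine Finset.card_bij (fun u _ => u * v0⁻¹) ?_ ?_ ?_
  · intro u hu
    rw [Finset.mem_filter]
    exact ⟨Finset.mem_univ _, key u hu⟩
  · intro u _ u' _ h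
    exact mul_right_cancel h
  · intro z hz
    have hz' := (Finset.mem_filter.1 hz).2
    refine ⟨z * v0, ?_, by group⟩
    rw [Finset.mem_filter, mem_csF]
    refine ⟨?_, S.mul_mem hz'.2 h0⟩
    have e : z * v0 * x⁻¹ = z * (v0 * x⁻¹) := by group
    rw [e]
    exact N.mul_mem hz'.1 h1

theorem card_inf [Finite A] [hV : V.Normal] (hVM : V ≤ M) (hM : M ≤ V ⊔ (M ⊓ S)) :
    Nat.card ↥(M ⊓ S) = V.relIndex M * Nat.card ↥(V ⊓ S) := by
  have e1 : V ⊔ (M ⊓ S) = M := le_antisymm (sup_le hVM inf_le_left) hM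
  have e2 : V.relIndex M = V.relIndex (M ⊓ S) := by
    conv_lhs => rw [← e1]
    rw [sup_comm]
    exact Subgroup.relIndex_sup_right _ _
  have e3 : (V ⊓ S).relIndex (M ⊓ S) = V.relIndex (M ⊓ S) := by
    rw [← Subgroup.inf_relIndex_right V (M ⊓ S), ← inf_assoc, inf_eq_left.2 hVM]
  rw [e2, ← e3]
  have h1 := Subgroup.relIndex_mul_relIndex ⊥ (V ⊓ S) (M ⊓ S) bot_le (inf_le_inf_right _ hVM)
  rw [Subgroup.relIndex_bot_left, Subgroup.relIndex_bot_left] at h1
  rw [← h1, mul_comm]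

theorem sum_coset [Fintype A] [hV : V.Normal] (hVM : V ≤ M) (hM : M ≤ V ⊔ (M ⊓ S)) (x : A)
    (g : A → R) (hg0 : ∀ u, u ∉ S → g u = 0) (hg : ∀ m ∈ M ⊓ S, ∀ u ∈ S, g (m * u) = g u) :
    ∑ u ∈ csF M x, g u = V.relIndex M • ∑ u ∈ csF V x, g u := by
  by_cases hex : ∃ v0 ∈ S, v0 * x⁻¹ ∈ V
  · obtain ⟨v0, h0, h1⟩ := hex
    rw [sum_coset_aux h0 (hVM h1) g hg0 hg,
      sum_coset_aux h0 h1 g hg0 (fun m hm => hg m ⟨hVM hm.1, hm.2⟩), card_inf hVM hM, mul_smul]
  · have h1 : ∀ u ∈ csF M x, u ∉ S := by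
      intro u hu huS
      apply hex
      rw [mem_csF] at hu
      have h2 := hM (M.inv_mem hu)
      obtain ⟨v, hv, s, hs, hvs⟩ := Subgroup.mem_sup_of_normal_left.1 h2
      refine ⟨s * u, S.mul_mem hs.2 huS, ?_⟩
      have e : s * u * x⁻¹ = v⁻¹ := by
        have e1 : s = v⁻¹ * (u * x⁻¹)⁻¹ := by rw [← hvs]; group
        rw [e1]; group
      rw [e]
      exact V.inv_mem hv
    rw [Finset.sum_eq_zero fun u hu => hg0 u (h1 u hu), Finset.sum_eq_zero, smul_zero]
    intro u hu
    apply hg0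
    intro huS
    exact hex ⟨u, huS, mem_csF.1 hu⟩

end grp

theorem isEmpty_irX [Finite A] (H : Subgroup A) : IsEmpty (IrX H (0 : MonoidAlgebra k A)) := by
  have := Fintype.ofFinite A
  constructor
  intro x
  induction x using Quotient.inductionOn with
  | _ σ =>
    have h2 := act_iff.2 σ.blk
    have : Fintype ↥H := Fintype.ofFinite _
    have h3 := (irr_iff.1 σ.irr).nontriv
    obtain ⟨v, hv⟩ := exists_ne (0 : Fin σ.n → k)
    have h4 := LinearMap.congr_fun h2 v
    rw [act_apply] at h4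
    apply hv
    rw [Module.End.one_apply] at h4
    rw [← h4]
    apply Finset.sum_eq_zero
    intro x _
    exact zero_smul k _

theorem stab_eq_inf (M : Subgroup A) (σ : Finset (Subgroup A)) : stab M σ = M ⊓ stab ⊤ σ := by
  unfold stab
  rw [top_inf_eq]

theorem mem_normalizer_stab {M : Subgroup A} (hM : M.Normal) {σ : Finset (Subgroup A)} {u : A}
    (hu : u ∈ stab ⊤ σ) : u ∈ Subgroup.normalizer (stab M σ : Set A) := by
  rw [stab_eq_inf]
  apply Jj.mem_normalizer_inf
  · rw [Subgroup.normalizer_eq_top]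
    exact Subgroup.mem_top u
  · exact Subgroup.le_normalizer hu

/-- sums of pair values over cosets of `M` and of `V` -/
theorem T1_eq [Fact p.Prime] [IsAlgClosed k] [Fintype A] {V M : Subgroup A} [hV : V.Normal]
    (hM : M.Normal) (hVM : V ≤ M) {D : Finset (Subgroup A)} {f : MonoidAlgebra k A}
    (hS : ∀ σ ∈ Ch D, cS (σ.sup id) f ≠ 0 → M ≤ V ⊔ stab M σ) (x y : A) :
    T1 p M D f x y =
      (V.relIndex M * V.relIndex M) • ∑ u ∈ csF V x, ∑ v ∈ csF V y, Gg.dl p M D f u v := by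
  classical
  -- the contribution of a chain
  let G : Finset (Subgroup A) → A → A → WittVector p k := fun σ u v =>
    if u ∈ stab ⊤ σ ∧ v ∈ stab ⊤ σ then
      ((-1) ^ σ.card * ((stab M σ).relIndex M : ℤ)) •
        ∑ᶠ c : IrX (stab M σ) (cS (σ.sup id) f),
          WittVector.teichmuller p (omX (stab M σ) (cS (σ.sup id) f) c u v)
    else 0
  have hdl : ∀ u v, Gg.dl p M D f u v = ∑ σ ∈ Ch D, G σ u v := by
    intro u v
    unfold Gg.dl
    rw [Finset.sum_filter]
  have key : ∀ σ ∈ Ch D, ∑ u ∈ csF M x, ∑ v ∈ csF M y, G σ u v =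
      (V.relIndex M * V.relIndex M) • ∑ u ∈ csF V x, ∑ v ∈ csF V y, G σ u v := by
    intro σ hσ
    by_cases h0 : cS (σ.sup id) f = 0
    · have h1 : ∀ u v, G σ u v = 0 := by
        intro u v
        show (if u ∈ stab ⊤ σ ∧ v ∈ stab ⊤ σ then _ else _) = _
        split_ifs
        · have h2 : IsEmpty (IrX (stab M σ) (cS (σ.sup id) f)) := by
            rw [h0]; exact isEmpty_irX _
          rw [finsum_of_isEmpty, smul_zero]
        · rfl
      simp only [h1, Finset.sum_const_zero, smul_zero]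
    · have hMS : M ≤ V ⊔ (M ⊓ stab ⊤ σ) := by
        rw [← stab_eq_inf]
        exact hS σ hσ h0
      have hcong : ∀ u u' v v' : A, u ∈ stab ⊤ σ → v ∈ stab ⊤ σ → u' * u⁻¹ ∈ stab M σ →
          v' * v⁻¹ ∈ stab M σ → G σ u' v' = G σ u v := by
        intro u u' v v' hu hv huu hvv
        have hu' : u' ∈ stab ⊤ σ := by
          have e : u' = u' * u⁻¹ * u := by group
          rw [e]
          rw [stab_eq_inf] at huu
          exact Subgroup.mul_mem _ huu.2 hu
        have hv' : v' ∈ stab ⊤ σ := by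
          have e : v' = v' * v⁻¹ * v := by group
          rw [e]
          rw [stab_eq_inf] at hvv
          exact Subgroup.mul_mem _ hvv.2 hv
        show (if u' ∈ stab ⊤ σ ∧ v' ∈ stab ⊤ σ then _ else _) =
          (if u ∈ stab ⊤ σ ∧ v ∈ stab ⊤ σ then _ else _)
        rw [if_pos ⟨hu', hv'⟩, if_pos ⟨hu, hv⟩]
        congr 1
        apply finsum_congr
        intro c
        congr 1
        exact om_congr (irr_iff.1 (Quotient.out c).irr) (mem_normalizer_stab hM hu)
          (mem_normalizer_stab hM hv) huu hvv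
      have hz1 : ∀ u v, u ∉ stab ⊤ σ → G σ u v = 0 := fun u v hu => if_neg fun h => hu h.1
      have hz2 : ∀ u v, v ∉ stab ⊤ σ → G σ u v = 0 := fun u v hv => if_neg fun h => hv h.2
      have step1 : ∀ u, ∑ v ∈ csF M y, G σ u v = V.relIndex M • ∑ v ∈ csF V y, G σ u v := by
        intro u
        by_cases hu : u ∈ stab ⊤ σ
        · apply sum_coset hVM hMS y (fun v => G σ u v) (fun v hv => hz2 u v hv)
          intro m hm v hv
          apply hcong u u v (m * v) hu hv
          · rw [mul_inv_cancel]; exact Subgroup.one_mem _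
          · have e : m * v * v⁻¹ = m := by group
            rw [e, stab_eq_inf]
            exact hm
        · simp only [hz1 u _ hu, Finset.sum_const_zero, smul_zero]
      rw [Finset.sum_congr rfl fun u _ => step1 u, ← Finset.smul_sum]
      have step2 : ∑ u ∈ csF M x, ∑ v ∈ csF V y, G σ u v =
          V.relIndex M • ∑ u ∈ csF V x, ∑ v ∈ csF V y, G σ u v := by
        apply sum_coset hVM hMS x (fun u => ∑ v ∈ csF V y, G σ u v)
        · intro u hu
          exact Finset.sum_eq_zero fun v _ => hz1 u v hu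
        · intro m hm u hu
          apply Finset.sum_congr rfl
          intro v _
          by_cases hv : v ∈ stab ⊤ σ
          · apply hcong u (m * u) v v hu hv
            · have e : m * u * u⁻¹ = m := by group
              rw [e, stab_eq_inf]
              exact hm
            · rw [mul_inv_cancel]; exact Subgroup.one_mem _
          · rw [hz2 _ v hv, hz2 _ v hv]
      rw [step2, smul_smul]
  unfold T1
  simp only [hdl]
  have swap : ∀ (X Y : Finset A), ∑ u ∈ X, ∑ v ∈ Y, ∑ σ ∈ Ch D, G σ u v =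
      ∑ σ ∈ Ch D, ∑ u ∈ X, ∑ v ∈ Y, G σ u v := by
    intro X Y
    rw [Finset.sum_congr rfl fun u _ => Finset.sum_comm]
    exact Finset.sum_comm
  rw [swap, swap, Finset.smul_sum]
  exact Finset.sum_congr rfl key

theorem cS_ne_hasBr [Finite A] {P : Subgroup A} {f : MonoidAlgebra k A} (h : cS P f ≠ 0) :
    HasBr P f := by
  by_contra h1
  apply h
  ext z
  by_cases hz : z ∈ (Subgroup.centralizer (P : Set A) : Set A)
  · rw [cS, coeff_resS_of_mem _ hz]
    by_contra h2
    exact h1 ⟨z, hz, h2⟩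
  · rw [cS, coeff_resS_of_notMem _ hz]
    rfl

/-- the case `M = h.unt` -/
theorem T1_unt [Fact p.Prime] [CharP k p] [IsAlgClosed k] [Fintype A] {V : Subgroup A}
    [hV : V.Normal] {c : MonoidAlgebra k A} (h : UH V ⊤ c) {D : Finset (Subgroup A)}
    (hD : ∀ Q ∈ D, Q ≤ V) (hp : ∀ Q ∈ D, IsPGroup p Q) {b : MonoidAlgebra k A}
    (hb : InvBy V b) (hbc : b * c = b) (x y : A) :
    T1 p h.unt D b x y = (V.relIndex h.unt * V.relIndex h.unt) •
      ∑ u ∈ csF V x, ∑ v ∈ csF V y, Gg.dl p h.unt D b u v := by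
  have hM : h.unt.Normal := by
    have h1 := h.norm_unt
    rw [top_le_iff] at h1
    exact Subgroup.normalizer_eq_top_iff.1 h1
  apply T1_eq hM h.le_unt
  intro σ hσ h0
  have hc := InvAux.mem_Ch.1 hσ
  have hPV : σ.sup id ≤ V := Finset.sup_le fun Q hQ => hD Q (hc.1 hQ)
  have hPp : IsPGroup p (σ.sup id : Subgroup A) := by
    rcases Ll.sup_mem_of_chain hc.2 with h1 | h1
    · rw [h1]; exact IsPGroup.of_bot
    · exact hp _ (hc.1 h1)
  have hbr : HasBr (σ.sup id) c := by
    apply cS_ne_hasBr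
    intro h1
    apply h0
    have h2 := resS_mul hPp (hb.mono hPV) (h.inv.mono le_top) (a := b) (b := c)
    rw [hbc] at h2
    show resS _ b = 0
    rw [h2]
    have h3 : resS (Subgroup.centralizer ((σ.sup id : Subgroup A) : Set A) : Set A) c = 0 := h1
    rw [h3, mul_zero]
  refine (h.unt_eq hPV hPp hbr).le.trans (sup_le le_sup_left (le_trans ?_ le_sup_right))
  intro m hm
  rw [Ll.mem_stab_iff]
  refine ⟨hm.1, fun Q hQ => ?_⟩
  apply Subgroup.centralizer_le_normalizer
  have h5 : (Q : Subgroup A) ≤ σ.sup id := Finset.le_sup (f := id) hQ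
  have h6 : (Q : Set A) ⊆ ((σ.sup id : Subgroup A) : Set A) := h5
  exact Subgroup.centralizer_le h6 hm.2

end Pool.Agent.Lib.P0c8ca5.Cs
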