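import Pool.Agent.Lib.P0c8ca5L.ChnC
import Pool.Agent.Lib.P0c8ca5H.LvN
import Pool.Agent.Lib.P0c8ca5H.ImL
import Pool.Agent.Lib.P0c8ca5U.UnxD
import Pool.Agent.Lib.P0c8ca5W.Cos

/-!
# The sum on the level of a central product, case of elements that normalize all factors

`V` is the central product of the `W i` over `Z`, `x` and `y` normalize every `W i`, `g = [y, x]`.

* `comm_lp_mul`: `[lp b * y, lp a * x] = lp h * g` with `h i * g = [b i * y, a i * x]`.
* `lvl_prod`: the sum of the symbols on the level of a chain of p-subgroups of product type.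
* `dlw_prod`: `dlw p V D c (lp a * x) (lp b * y) w = τ(s⁻¹) * ∏ i, dlw p (W i) (famAll p (W i)) (cc i) (a i * x) (b i * y) (wi i)`.
* `T2_prod`: the same for the sums over the cosets.
-/

set_option autoImplicit false

namespace Pool.Agent.Lib.P0c8ca5.Cs

open MonoidAlgebra Ps Bq Zz Hh Gg Un8 Ll Jj

variable {p : ℕ} {k : Type*} [Field k] {A : Type*} [Group A]

theorem imp_congr {N : Subgroup A} {f e : MonoidAlgebra k A} {g g' : A} (h : Imp N f g e)
    (hg : ∀ z ∈ N, g * z * g⁻¹ = g' * z * g'⁻¹) : Imp N f g' e :=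
  ⟨h.supp, fun z hz => by rw [h.comm z hz, hg z hz], h.inv⟩

/-- conjugations with products -/
theorem conj_comm_congr {N : Subgroup A} {u v u' v' : A}
    (hu : u ∈ Subgroup.normalizer (N : Set A)) (hv : v ∈ Subgroup.normalizer (N : Set A))
    (hu' : ∀ z ∈ N, u * z * u⁻¹ = u' * z * u'⁻¹) (hv' : ∀ z ∈ N, v * z * v⁻¹ = v' * z * v'⁻¹) :
    ∀ z ∈ N, v * u * v⁻¹ * u⁻¹ * z * (v * u * v⁻¹ * u⁻¹)⁻¹ =
      v' * u' * v'⁻¹ * u'⁻¹ * z * (v' * u' * v'⁻¹ * u'⁻¹)⁻¹ := by
  intro z hz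
  have hinv : ∀ {u u' : A}, u ∈ Subgroup.normalizer (N : Set A) →
      (∀ z ∈ N, u * z * u⁻¹ = u' * z * u'⁻¹) → ∀ z ∈ N, u⁻¹ * z * u = u'⁻¹ * z * u' ∧
        u⁻¹ * z * u ∈ N := by
    intro u u' hu hu' z hz
    have h1 : u⁻¹ * z * u ∈ N := by
      have h2 := (Subgroup.mem_normalizer_iff.1 (Subgroup.inv_mem _ hu) z).1 hz
      rwa [inv_inv] at h2
    refine ⟨?_, h1⟩
    have h2 := hu' _ h1
    have e : u * (u⁻¹ * z * u) * u⁻¹ = z := by group
    rw [e] at h2
    calc u⁻¹ * z * u = u'⁻¹ * (u' * (u⁻¹ * z * u) * u'⁻¹) * u' := by group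
      _ = u'⁻¹ * z * u' := by rw [← h2]
  obtain ⟨e1, m1⟩ := hinv hu hu' z hz
  obtain ⟨e2, m2⟩ := hinv hv hv' _ m1
  have e3 := hu' _ m2
  have m3 : u * (v⁻¹ * (u⁻¹ * z * u) * v) * u⁻¹ ∈ N :=
    (Subgroup.mem_normalizer_iff.1 hu _).1 m2
  have e4 := hv' _ m3
  calc v * u * v⁻¹ * u⁻¹ * z * (v * u * v⁻¹ * u⁻¹)⁻¹
      = v * (u * (v⁻¹ * (u⁻¹ * z * u) * v) * u⁻¹) * v⁻¹ := by group
    _ = v' * (u' * (v'⁻¹ * (u'⁻¹ * z * u') * v') * u'⁻¹) * v'⁻¹ := by rw [e4, e3, e2, e1]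
    _ = _ := by group

section

variable {Z V : Subgroup A} {n : ℕ} {W : Fin n → Subgroup A} {x y : A}

/-- `[lp b * y, lp a * x] = lp h * [y, x]` -/
theorem comm_lp_mul (hc : ∀ i j, i ≠ j → ∀ x ∈ W i, ∀ y ∈ W j, x * y = y * x)
    (hx : ∀ i, x ∈ Subgroup.normalizer (W i : Set A))
    (hy : ∀ i, y ∈ Subgroup.normalizer (W i : Set A)) {a b : Fin n → A} (ha : ∀ i, a i ∈ W i)
    (hb : ∀ i, b i ∈ W i) :
    lp b * y * (lp a * x) * (lp b * y)⁻¹ * (lp a * x)⁻¹ =
      lp (fun i => b i * y * (a i * x) * (b i * y)⁻¹ * (a i * x)⁻¹ * (y * x * y⁻¹ * x⁻¹)⁻¹) *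
        (y * x * y⁻¹ * x⁻¹) := by
  have hxi : ∀ i, x⁻¹ ∈ Subgroup.normalizer (W i : Set A) := fun i => Subgroup.inv_mem _ (hx i)
  have hyi : ∀ i, y⁻¹ ∈ Subgroup.normalizer (W i : Set A) := fun i => Subgroup.inv_mem _ (hy i)
  have hcm : ∀ {u v : Fin n → A}, (∀ i, u i ∈ W i) → (∀ i, v i ∈ W i) →
      ∀ i j, i ≠ j → Commute (u i) (v j) := fun hu hv i j hij => hc i j hij _ (hu i) _ (hv j)
  obtain ⟨t, ht⟩ : ∃ t, t = y * x * y⁻¹ := ⟨_, rfl⟩
  obtain ⟨g, hg⟩ : ∃ g, g = y * x * y⁻¹ * x⁻¹ := ⟨_, rfl⟩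
  have htn : ∀ i, t ∈ Subgroup.normalizer (W i : Set A) := fun i => by
    rw [ht]; exact Subgroup.mul_mem _ (Subgroup.mul_mem _ (hy i) (hx i)) (hyi i)
  have hgn : ∀ i, g ∈ Subgroup.normalizer (W i : Set A) := fun i => by
    rw [hg]; exact Subgroup.mul_mem _ (Subgroup.mul_mem _ (Subgroup.mul_mem _ (hy i) (hx i)) (hyi i))
      (hxi i)
  have m1 : ∀ i, y * a i * y⁻¹ ∈ W i := fun i => (Subgroup.mem_normalizer_iff.1 (hy i) _).1 (ha i)
  have m2 : ∀ i, t * (b i)⁻¹ * t⁻¹ ∈ W i := fun i =>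
    (Subgroup.mem_normalizer_iff.1 (htn i) _).1 ((W i).inv_mem (hb i))
  have m3 : ∀ i, g * (a i)⁻¹ * g⁻¹ ∈ W i := fun i =>
    (Subgroup.mem_normalizer_iff.1 (hgn i) _).1 ((W i).inv_mem (ha i))
  have e1 : lp (fun i => b i * y * (a i * x) * (b i * y)⁻¹ * (a i * x)⁻¹ * g⁻¹) =
      lp b * (y * lp a * y⁻¹) * (t * (lp b)⁻¹ * t⁻¹) * (g * (lp a)⁻¹ * g⁻¹) := by
    have e2 : (fun i => b i * y * (a i * x) * (b i * y)⁻¹ * (a i * x)⁻¹ * g⁻¹) =
        fun i => b i * (y * a i * y⁻¹) * (t * (b i)⁻¹ * t⁻¹) * (g * (a i)⁻¹ * g⁻¹) := by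
      funext i
      rw [ht, hg]
      group
    rw [e2, lp_mul (hcm (fun i => (W i).mul_mem ((W i).mul_mem (hb i) (m1 i)) (m2 i)) m3),
      lp_mul (hcm (fun i => (W i).mul_mem (hb i) (m1 i)) m2), lp_mul (hcm hb m1),
      ← lp_conj, ← lp_conj, ← lp_conj, lp_inv (hcm hb hb), lp_inv (hcm ha ha)]
  rw [← hg, e1, ht, hg]
  group

end

section

variable {Z V : Subgroup A} {n : ℕ} {W : Fin n → Subgroup A} {x y : A}
  {c : MonoidAlgebra k A} {cc : Fin n → MonoidAlgebra k A} {l : A → k}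
  {w η : MonoidAlgebra k A} {wi vi : Fin n → MonoidAlgebra k A} {s : k}

/-- central elements act by scalars on the levels -/
theorem hz_cS [Finite A] {Q : Subgroup A} {z : A} (hz : ∀ a : A, z * a = a * z) {m : MonoidAlgebra k A}
    {t : k} (h : single z (1 : k) * m = t • m) : single z (1 : k) * cS Q m = t • cS Q m := by
  have hzQ : z ∈ Subgroup.centralizer (Q : Set A) := by
    rw [Subgroup.mem_centralizer_iff]
    exact fun a _ => (hz a).symm
  have h1 := single_resS z (Subgroup.centralizer (Q : Set A) : Set A) m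
  have h2 : {u : A | z⁻¹ * u ∈ (Subgroup.centralizer (Q : Set A) : Set A)} =
      (Subgroup.centralizer (Q : Set A) : Set A) := by
    ext u
    exact Subgroup.mul_mem_cancel_left _ (Subgroup.inv_mem _ hzQ)
  rw [h2, h, resS_smul] at h1
  exact h1

section

variable [Fact p.Prime] [CharP k p] [IsAlgClosed k] [Fintype A]
  (hd : Dec p Z V W) (h : UH V ⊤ c) (hP : CP V W c cc)
  (hcc : ∀ i, UH (W i) (Subgroup.normalizer (W i : Set A)) (cc i))
  (hz : ∀ i, ∀ z ∈ Z, single z (1 : k) * cc i = l z • cc i)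
  (hx : ∀ i, x ∈ Subgroup.normalizer (W i : Set A))
  (hy : ∀ i, y ∈ Subgroup.normalizer (W i : Set A))
  (hwi : ∀ i, UP (W i) (cc i) (y * x * y⁻¹ * x⁻¹)⁻¹ (wi i) (vi i))
  (hη : η ∈ fixAlg k V V) (hs : IsRes c η s) (hs0 : s ≠ 0)
  (hw : single (y * x * y⁻¹ * x⁻¹) 1 * w = η * lp (fun i => single (y * x * y⁻¹ * x⁻¹) 1 * wi i))

include hd h hP hcc hz hx hy hwi hη hs hs0 hw

/-- the sum of the symbols on the level of a chain -/
theorem lvl_prod {σ : Finset (Subgroup A)} (hσ : σ ∈ Ch (Hh.PD p V W)) {a b : Fin n → A}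
    (ha : ∀ i, a i ∈ W i) (hb : ∀ i, b i ∈ W i)
    (hu : ∀ i, a i * x ∈ stab ⊤ (prj (W i) σ)) (hv : ∀ i, b i * y ∈ stab ⊤ (prj (W i) σ)) :
    (∑ᶠ m : IrX (stab V σ) (cS (σ.sup id) c),
      WittVector.teichmuller p (omwX (stab V σ) (cS (σ.sup id) c) m (lp a * x) (lp b * y)
        (single (lp b * y * (lp a * x) * (lp b * y)⁻¹ * (lp a * x)⁻¹) 1 * cS (σ.sup id) w))) =
      WittVector.teichmuller p s⁻¹ * ∏ i,
        ∑ᶠ m : IrX (stab (W i) (prj (W i) σ)) (cS ((prj (W i) σ).sup id) (cc i)),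
          WittVector.teichmuller p (omwX (stab (W i) (prj (W i) σ))
            (cS ((prj (W i) σ).sup id) (cc i)) m (a i * x) (b i * y)
            (single (b i * y * (a i * x) * (b i * y)⁻¹ * (a i * x)⁻¹) 1 *
              cS ((prj (W i) σ).sup id) (wi i))) := by
  classical
  have hgn : ∀ i, y * x * y⁻¹ * x⁻¹ ∈ Subgroup.normalizer (W i : Set A) := fun i =>
    Subgroup.mul_mem _ (Subgroup.mul_mem _ (Subgroup.mul_mem _ (hy i) (hx i))
      (Subgroup.inv_mem _ (hy i))) (Subgroup.inv_mem _ (hx i))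
  have hgV : y * x * y⁻¹ * x⁻¹ ∈ Subgroup.normalizer (V : Set A) :=
    h.nm (Subgroup.mem_top _)
  have hτ : ∀ i, prj (W i) σ ∈ Ch (famAll p (W i)) := fun i => prj_mem hd hσ i
  have q : ∀ i, QT p (W i) ((prj (W i) σ).sup id) (TT (prj (W i) σ)) := fun i =>
    qt_chain (D := famAll p (W i)) (fun R hR => (Gg.mem_famAll.1 hR).1)
      (fun R hR => (Gg.mem_famAll.1 hR).2.1) (hτ i)
  have qV : QT p V (σ.sup id) (TT σ) :=
    qt_chain (D := Hh.PD p V W) (fun R hR => (mem_PD.1 hR).1)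
      (fun R hR => (mem_PD.1 hR).2.1) hσ
  have hsup : σ.sup id = ⨆ i, (prj (W i) σ).sup id := sup_eq hσ
  have hle : ∀ i, (prj (W i) σ).sup id ≤ W i := fun i => (q i).QN
  have hcsup : cS (σ.sup id) c = lp (fun i => cS ((prj (W i) σ).sup id) (cc i)) := by
    rw [hP.eq, hsup]
    exact cS_lp hd.comm hle fun i => (hcc i).blk.suppIn
  have hux : lp a * x ∈ stab ⊤ σ := (lp_mul_mem_stab_top hd hσ ha hx).2 hu
  have hvy : lp b * y ∈ stab ⊤ σ := (lp_mul_mem_stab_top hd hσ hb hy).2 hv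
  have huW : ∀ i, lp a * x ∈ Subgroup.normalizer (W i : Set A) := fun i =>
    Subgroup.mul_mem _ (norBy_iff.1 (hd.norBy i) (Hh.lp_mem V fun j => hd.le' j (ha j))) (hx i)
  have hvW : ∀ i, lp b * y ∈ Subgroup.normalizer (W i : Set A) := fun i =>
    Subgroup.mul_mem _ (norBy_iff.1 (hd.norBy i) (Hh.lp_mem V fun j => hd.le' j (hb j))) (hy i)
  have hnst : ∀ {i : Fin n} {u : A}, u ∈ stab ⊤ σ → u ∈ Subgroup.normalizer (W i : Set A) →
      u ∈ Subgroup.normalizer (stab (W i) (prj (W i) σ) : Set A) := by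
    intro i u h1 h2
    rw [stab_eq_inf]
    apply Jj.mem_normalizer_inf h2
    apply Subgroup.le_normalizer
    rw [mem_stab_iff] at h1 ⊢
    refine ⟨Subgroup.mem_top u, fun P hP => ?_⟩
    obtain ⟨-, Q, hQ, rfl⟩ := mem_prj.1 hP
    exact Jj.mem_normalizer_inf (h1.2 Q hQ) h2
  have hu' : ∀ i, ∀ z ∈ stab (W i) (prj (W i) σ),
      lp a * x * z * (lp a * x)⁻¹ = a i * x * z * (a i * x)⁻¹ := fun i z hz =>
    lp_mul_conj hd ha hx (mem_stab_iff.1 hz).1
  have hv' : ∀ i, ∀ z ∈ stab (W i) (prj (W i) σ),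
      lp b * y * z * (lp b * y)⁻¹ = b i * y * z * (b i * y)⁻¹ := fun i z hz =>
    lp_mul_conj hd hb hy (mem_stab_iff.1 hz).1
  have hrK : ∀ i, b i * y * (a i * x) * (b i * y)⁻¹ * (a i * x)⁻¹ ∈
      Subgroup.normalizer (W i : Set A) ⊓ TT (prj (W i) σ) := by
    intro i
    have m1 : a i * x ∈ Subgroup.normalizer (W i : Set A) ⊓ TT (prj (W i) σ) :=
      ⟨Subgroup.mul_mem _ (Subgroup.le_normalizer (ha i)) (hx i), (hu i).2⟩
    have m2 : b i * y ∈ Subgroup.normalizer (W i : Set A) ⊓ TT (prj (W i) σ) :=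
      ⟨Subgroup.mul_mem _ (Subgroup.le_normalizer (hb i)) (hy i), (hv i).2⟩
    exact Subgroup.mul_mem _ (Subgroup.mul_mem _ (Subgroup.mul_mem _ m2 m1)
      (Subgroup.inv_mem _ m2)) (Subgroup.inv_mem _ m1)
  have hrg : ∀ i, b i * y * (a i * x) * (b i * y)⁻¹ * (a i * x)⁻¹ *
      (y * x * y⁻¹ * x⁻¹)⁻¹ ∈ W i := fun i =>
    comm_coset (hcc i) (hx i) (by rw [mul_inv_cancel_right]; exact ha i) (hy i)
      (by rw [mul_inv_cancel_right]; exact hb i)
  rw [hcsup]
  refine sum_omw_prod (stab_dec hd hσ) (f := fun i => cS ((prj (W i) σ).sup id) (cc i)) ?_ ?_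
    (l := l) ?_ (fun i => hnst hux (huW i)) (fun i => hnst hvy (hvW i)) hu' hv' ?_ hs0 ?_
  · exact fun i => mem_fixAlg.2 ⟨supp_cS (q i) (hcc i).blk.suppIn, cS_inv (q i) (hcc i).blk.invBy⟩
  · intro i
    rw [← cS_mul (q i) (hcc i).blk.invBy (hcc i).blk.invBy, (hcc i).cc]
  · intro i z hzZ
    exact hz_cS (fun a => hd.zcomm hzZ a) (hz i z hzZ)
  · intro i
    refine imp_congr (imp_level (hcc i) (q i) (hgn i) (hwi i) (hrK i) (hrg i)) fun z hzi => ?_
    exact (conj_comm_congr (hnst hux (huW i)) (hnst hvy (hvW i)) (hu' i) (hv' i) z hzi).symm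
  · intro m ρ hρ hρ1
    have e1 : single (lp b * y * (lp a * x) * (lp b * y)⁻¹ * (lp a * x)⁻¹) 1 *
        cS (σ.sup id) w = cS (σ.sup id) η * lp (fun i =>
          single (b i * y * (a i * x) * (b i * y)⁻¹ * (a i * x)⁻¹) 1 *
            cS ((prj (W i) σ).sup id) (wi i)) := by
      rw [comm_lp_mul hd.comm hx hy ha hb, hsup]
      rw [CP.level hP hgV hgn (fun i => invBy_iff_cj.1 (hcc i).inv _ (hgn i)) hwi hη hw hle
        (hsup ▸ qV.pg) hrg ?_]
      · congr 2
        funext i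
        rw [inv_mul_cancel_right]
      · rw [← comm_lp_mul hd.comm hx hy ha hb, ← hsup]
        have m1 := Subgroup.mul_mem _ (Subgroup.mul_mem _ (Subgroup.mul_mem _ hvy hux)
          (Subgroup.inv_mem _ hvy)) (Subgroup.inv_mem _ hux)
        exact qV.nT m1.2
    rw [e1, act_mul ρ (supp_cS qV (mem_fixAlg.1 hη).1)]
    have e2 : act ρ (cS (σ.sup id) η) = s • 1 := by
      refine act_res h qV hρ ?_ hη hs
      rw [hcsup]
      exact hρ1
    rw [e2, smul_mul_assoc, one_mul]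

/-- the product formula for the value of a pair -/
theorem dlw_prod {a b : Fin n → A} (ha : ∀ i, a i ∈ W i) (hb : ∀ i, b i ∈ W i) :
    dlw p V (Hh.PD p V W) c (lp a * x) (lp b * y) w =
      WittVector.teichmuller p s⁻¹ *
        ∏ i, dlw p (W i) (famAll p (W i)) (cc i) (a i * x) (b i * y) (wi i) := by
  classical
  let F : (Fin n → Finset (Subgroup A)) → WittVector p k := fun t =>
    WittVector.teichmuller p s⁻¹ * ∏ i,
      if a i * x ∈ stab ⊤ (t i) ∧ b i * y ∈ stab ⊤ (t i) then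
        (((stab (W i) (t i)).relIndex (W i) : ℕ) : WittVector p k) *
          ∑ᶠ m : IrX (stab (W i) (t i)) (cS ((t i).sup id) (cc i)),
            WittVector.teichmuller p (omwX (stab (W i) (t i))
              (cS ((t i).sup id) (cc i)) m (a i * x) (b i * y)
              (single (b i * y * (a i * x) * (b i * y)⁻¹ * (a i * x)⁻¹) 1 *
                cS ((t i).sup id) (wi i)))
      else 0
  have e1 : dlw p V (Hh.PD p V W) c (lp a * x) (lp b * y) w =
      ∑ σ ∈ Ch (Hh.PD p V W), (-1) ^ σ.card * F (fun i => prj (W i) σ) := by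
    rw [dlw, Finset.sum_filter]
    apply Finset.sum_congr rfl
    intro σ hσ
    by_cases hall : ∀ i, a i * x ∈ stab ⊤ (prj (W i) σ) ∧ b i * y ∈ stab ⊤ (prj (W i) σ)
    · rw [if_pos ⟨(lp_mul_mem_stab_top hd hσ ha hx).2 fun i => (hall i).1,
        (lp_mul_mem_stab_top hd hσ hb hy).2 fun i => (hall i).2⟩,
        lvl_prod hd h hP hcc hz hx hy hwi hη hs hs0 hw hσ ha hb (fun i => (hall i).1)
          (fun i => (hall i).2), zsmul_eq_mul, relIndex_stab hd hσ]
      have e2 : F (fun i => prj (W i) σ) = WittVector.teichmuller p s⁻¹ * ∏ i,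
          ((((stab (W i) (prj (W i) σ)).relIndex (W i) : ℕ) : WittVector p k) *
          ∑ᶠ m : IrX (stab (W i) (prj (W i) σ)) (cS ((prj (W i) σ).sup id) (cc i)),
            WittVector.teichmuller p (omwX (stab (W i) (prj (W i) σ))
              (cS ((prj (W i) σ).sup id) (cc i)) m (a i * x) (b i * y)
              (single (b i * y * (a i * x) * (b i * y)⁻¹ * (a i * x)⁻¹) 1 *
                cS ((prj (W i) σ).sup id) (wi i)))) := by
        simp only [F]
        congr 1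
        exact Finset.prod_congr rfl fun i _ => if_pos (hall i)
      rw [e2, Finset.prod_mul_distrib]
      push_cast
      ring
    · rw [if_neg]
      · have e2 : F (fun i => prj (W i) σ) = 0 := by
          obtain ⟨i, hi⟩ := not_forall.1 hall
          simp only [F]
          rw [Finset.prod_eq_zero (Finset.mem_univ i) (if_neg hi), mul_zero]
        rw [e2, mul_zero]
      · rintro ⟨h1, h2⟩
        exact hall fun i => ⟨(lp_mul_mem_stab_top hd hσ ha hx).1 h1 i,
          (lp_mul_mem_stab_top hd hσ hb hy).1 h2 i⟩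
  rw [e1, comb hd F]
  have e3 : ∀ i, dlw p (W i) (famAll p (W i)) (cc i) (a i * x) (b i * y) (wi i) =
      ∑ τ ∈ Ch (famAll p (W i)), (-1) ^ τ.card *
        if a i * x ∈ stab ⊤ τ ∧ b i * y ∈ stab ⊤ τ then
          (((stab (W i) τ).relIndex (W i) : ℕ) : WittVector p k) *
          ∑ᶠ m : IrX (stab (W i) τ) (cS (τ.sup id) (cc i)),
            WittVector.teichmuller p (omwX (stab (W i) τ)
              (cS (τ.sup id) (cc i)) m (a i * x) (b i * y)
              (single (b i * y * (a i * x) * (b i * y)⁻¹ * (a i * x)⁻¹) 1 *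
                cS (τ.sup id) (wi i)))
        else 0 := by
    intro i
    rw [dlw, Finset.sum_filter]
    apply Finset.sum_congr rfl
    intro τ _
    split_ifs
    · rw [zsmul_eq_mul]
      push_cast
      ring
    · rw [mul_zero]
  rw [Finset.prod_congr rfl fun i _ => e3 i, Finset.prod_univ_sum, Finset.mul_sum]
  refine Finset.sum_congr (congrArg (fun inst => @Fintype.piFinset (Fin n) inst _ _
    (fun i => Ch (famAll p (W i)))) (Subsingleton.elim _ _)) ?_
  intro t _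
  rw [Finset.prod_mul_distrib, Finset.prod_pow_eq_pow_sum]
  simp only [F]
  ring

/-- the product formula for the sums over the cosets -/
theorem T2_prod :
    ((Nat.card Z : WittVector p k) ^ (n - 1)) ^ 2 * T2 p V (Hh.PD p V W) c x y w =
      WittVector.teichmuller p s⁻¹ *
        ∏ i, T2 p (W i) (famAll p (W i)) (cc i) x y (wi i) := by
  classical
  have key : ∀ (z : A) (F : A → WittVector p k),
      ∑ a ∈ Fintype.piFinset (fun i => Finset.univ.filter (fun u => u ∈ W i)), F (lp a * z) =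
        (Nat.card Z : WittVector p k) ^ (n - 1) * ∑ v ∈ csF V z, F v := by
    intro z F
    rw [sum_lp hd (X := W) (fun i => le_rfl) hd.le
      (fun i => Finset.univ.filter (fun u => u ∈ W i))
      (Finset.univ.filter (fun u => u ∈ V)) (fun i u => by simp)
      (fun u => by rw [hd.sup]; simp) (fun v => F (v * z))]
    congr 1
    refine Finset.sum_nbij' (fun u => u * z) (fun v => v * z⁻¹) ?_ ?_ ?_ ?_ ?_
    · intro u hu
      rw [mem_csF, mul_inv_cancel_right]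
      exact (Finset.mem_filter.1 hu).2
    · intro v hv
      exact Finset.mem_filter.2 ⟨Finset.mem_univ _, mem_csF.1 hv⟩
    · intro u _
      exact mul_inv_cancel_right u z
    · intro v _
      exact inv_mul_cancel_right v z
    · intro u _
      rfl
  have key1 : ∀ (i : Fin n) (z : A) (F : A → WittVector p k),
      ∑ v ∈ csF (W i) z, F v = ∑ u ∈ Finset.univ.filter (fun u => u ∈ W i), F (u * z) := by
    intro i z F
    symm
    refine Finset.sum_nbij' (fun u => u * z) (fun v => v * z⁻¹) ?_ ?_ ?_ ?_ ?_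
    · intro u hu
      rw [mem_csF, mul_inv_cancel_right]
      exact (Finset.mem_filter.1 hu).2
    · intro v hv
      exact Finset.mem_filter.2 ⟨Finset.mem_univ _, mem_csF.1 hv⟩
    · intro u _
      exact mul_inv_cancel_right u z
    · intro v _
      exact inv_mul_cancel_right v z
    · intro u _
      rfl
  have e1 : ((Nat.card Z : WittVector p k) ^ (n - 1)) ^ 2 * T2 p V (Hh.PD p V W) c x y w =
      ∑ a ∈ Fintype.piFinset (fun i => Finset.univ.filter (fun u => u ∈ W i)),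
        ∑ b ∈ Fintype.piFinset (fun i => Finset.univ.filter (fun u => u ∈ W i)),
          dlw p V (Hh.PD p V W) c (lp a * x) (lp b * y) w := by
    have e2 : ∀ a : Fin n → A,
        ∑ b ∈ Fintype.piFinset (fun i => Finset.univ.filter (fun u => u ∈ W i)),
          dlw p V (Hh.PD p V W) c (lp a * x) (lp b * y) w =
        (Nat.card Z : WittVector p k) ^ (n - 1) *
          ∑ v ∈ csF V y, dlw p V (Hh.PD p V W) c (lp a * x) v w := fun a =>
      key y fun v => dlw p V (Hh.PD p V W) c (lp a * x) v w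
    rw [Finset.sum_congr rfl fun a _ => e2 a, key x fun u =>
      (Nat.card Z : WittVector p k) ^ (n - 1) *
          ∑ v ∈ csF V y, dlw p V (Hh.PD p V W) c u v w, ← Finset.mul_sum, ← mul_assoc, T2, sq]
  have e3 : ∀ i, T2 p (W i) (famAll p (W i)) (cc i) x y (wi i) =
      ∑ u ∈ Finset.univ.filter (fun u => u ∈ W i), ∑ v ∈ Finset.univ.filter (fun u => u ∈ W i),
        dlw p (W i) (famAll p (W i)) (cc i) (u * x) (v * y) (wi i) := by
    intro i
    rw [T2, key1 i x]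
    apply Finset.sum_congr rfl
    intro u _
    rw [key1 i y]
  rw [e1, Finset.prod_congr rfl fun i _ => e3 i, Finset.prod_univ_sum, Finset.mul_sum]
  apply Finset.sum_congr rfl
  intro a ha
  rw [Finset.prod_univ_sum, Finset.mul_sum]
  apply Finset.sum_congr rfl
  intro b hb
  rw [Fintype.mem_piFinset] at ha hb
  exact dlw_prod hd h hP hcc hz hx hy hwi hη hs hs0 hw (fun i => (Finset.mem_filter.1 (ha i)).2)
    (fun i => (Finset.mem_filter.1 (hb i)).2)

end

/-- the product formula, with a nonzero scalar -/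
theorem T2_prod' [Fact p.Prime] [CharP k p] [IsAlgClosed k] [Fintype A]
    (hd : Dec p Z V W) (h : UH V ⊤ c) (hP : CP V W c cc)
    (hcc : ∀ i, UH (W i) (Subgroup.normalizer (W i : Set A)) (cc i))
    (hz : ∀ i, ∀ z ∈ Z, single z (1 : k) * cc i = l z • cc i)
    (hx : ∀ i, x ∈ Subgroup.normalizer (W i : Set A))
    (hy : ∀ i, y ∈ Subgroup.normalizer (W i : Set A)) {v : MonoidAlgebra k A}
    (hw : UP V c (y * x * y⁻¹ * x⁻¹)⁻¹ w v)
    (hwi : ∀ i, UP (W i) (cc i) (y * x * y⁻¹ * x⁻¹)⁻¹ (wi i) (vi i)) :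
    ∃ s : k, s ≠ 0 ∧
      ((Nat.card Z : WittVector p k) ^ (n - 1)) ^ 2 * T2 p V (Hh.PD p V W) c x y w =
        WittVector.teichmuller p s *
          ∏ i, T2 p (W i) (famAll p (W i)) (cc i) x y (wi i) := by
  have hgn : ∀ i, y * x * y⁻¹ * x⁻¹ ∈ Subgroup.normalizer (W i : Set A) := fun i =>
    Subgroup.mul_mem _ (Subgroup.mul_mem _ (Subgroup.mul_mem _ (hy i) (hx i))
      (Subgroup.inv_mem _ (hy i))) (Subgroup.inv_mem _ (hx i))
  obtain ⟨η, hη, s, hs0, hs, hw'⟩ := hP.eta (h.nm (Subgroup.mem_top _)) hgn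
    (fun i => invBy_iff_cj.1 (hcc i).inv _ (hgn i)) hwi h (Subgroup.mem_top _) hw
  exact ⟨s⁻¹, inv_ne_zero hs0, T2_prod hd h hP hcc hz hx hy hwi hη hs hs0 hw'⟩

end

end Pool.Agent.Lib.P0c8ca5.Cs
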