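import Mathlib
import Pool.Agent.Lib.P0c8ca5P.Red
import Pool.Agent.Lib.P0c8ca5C.Defs
import Pool.Agent.Lib.P0c8ca5J.MinNor

/-!
# Module UbA: blocks of a product of two commuting subgroups

`isBlock_mul`: if `W` and `R` commute elementwise and `|W ⊓ R|` is not zero in `k`, then the product of a block `e` of
`W` and a block `f` of `R` is zero or a block of `W ⊔ R`.

PROOF.  Every `z ∈ Z(k (W R))` is a linear combination of products of elements of `Z(kW)` and `Z(kR)`: group the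
components of `z` on the cosets `W s`, `s ∈ R`, by their values.  So a character of the algebra `Z(k (W R))` is
determined by its restrictions to `Z(kW)` and `Z(kR)`, and these are determined by `l e = 1` and `l f = 1`.
-/

set_option autoImplicit false

namespace Pool.Agent.Lib.P0c8ca5.Ww

open MonoidAlgebra

variable {p : ℕ} {k : Type*} [Field k] {A : Type*} [Group A] {W R : Subgroup A}

/-- the component of `z` on the coset `W s`, moved to `W` -/
noncomputable def cmp (W : Subgroup A) (z : MonoidAlgebra k A) (s : A) : MonoidAlgebra k A :=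
  resS (W : Set A) (z * single s⁻¹ 1)

theorem coeff_cmp (z : MonoidAlgebra k A) (s : A) {w : A} (hw : w ∈ W) :
    (cmp W z s).coeff w = z.coeff (w * s) := by
  have hw' : w ∈ (W : Set A) := hw
  rw [cmp, coeff_resS_of_mem _ hw', coeff_mul_single_apply, mul_one, inv_inv]

theorem coeff_cmp' (z : MonoidAlgebra k A) (s : A) {w : A} (hw : w ∉ W) :
    (cmp W z s).coeff w = 0 := by
  have hw' : w ∉ (W : Set A) := hw
  rw [cmp, coeff_resS_of_notMem _ hw']

theorem cmp_mem (hc : ∀ x ∈ W, ∀ y ∈ R, x * y = y * x) {z : MonoidAlgebra k A} (hz : InvBy W z)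
    {s : A} (hs : s ∈ R) : cmp W z s ∈ fixAlg k W W := by
  refine mem_fixAlg.2 ⟨resS_suppIn, fun g hg x => ?_⟩
  by_cases hx : x ∈ W
  · have hgx : g * x * g⁻¹ ∈ W := W.mul_mem (W.mul_mem hg hx) (W.inv_mem hg)
    rw [coeff_cmp _ _ hgx, coeff_cmp _ _ hx]
    have e : g * x * g⁻¹ * s = g * (x * s) * g⁻¹ := by
      rw [mul_assoc (g * x), hc _ (W.inv_mem hg) s hs]; group
    rw [e]
    exact hz g hg _
  · have hgx : g * x * g⁻¹ ∉ W := by
      intro h
      apply hx
      have h1 := W.mul_mem (W.mul_mem (W.inv_mem hg) h) hg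
      have e : g⁻¹ * (g * x * g⁻¹) * g = x := by group
      rwa [e] at h1
    rw [coeff_cmp' _ _ hgx, coeff_cmp' _ _ hx]

theorem cmp_conj (hc : ∀ x ∈ W, ∀ y ∈ R, x * y = y * x) {z : MonoidAlgebra k A} (hz : InvBy R z)
    {t : A} (ht : t ∈ R) (s : A) : cmp W z (t * s * t⁻¹) = cmp W z s := by
  ext w
  by_cases hw : w ∈ W
  · rw [coeff_cmp _ _ hw, coeff_cmp _ _ hw]
    have e : w * (t * s * t⁻¹) = t * (w * s) * t⁻¹ := by
      have h1 := hc w hw t ht
      calc w * (t * s * t⁻¹) = (w * t) * s * t⁻¹ := by group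
        _ = t * w * s * t⁻¹ := by rw [h1]
        _ = t * (w * s) * t⁻¹ := by group
    rw [e]
    exact hz t ht _
  · rw [coeff_cmp' _ _ hw, coeff_cmp' _ _ hw]

open Classical in
/-- the sum of the `s ∈ R` for which the component of `z` is `a` -/
noncomputable def lev [Fintype A] (W R : Subgroup A) (z a : MonoidAlgebra k A) :
    MonoidAlgebra k A :=
  MonoidAlgebra.ofCoeff (Finsupp.equivFunOnFinite.symm
    (fun s => if s ∈ R ∧ cmp W z s = a then (1 : k) else 0))

open Classical in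
theorem coeff_lev [Fintype A] (W R : Subgroup A) (z a : MonoidAlgebra k A) (s : A) :
    (lev W R z a).coeff s = if s ∈ R ∧ cmp W z s = a then (1 : k) else 0 := by
  rw [lev, coeff_ofCoeff]
  rfl

theorem lev_mem [Fintype A] (hc : ∀ x ∈ W, ∀ y ∈ R, x * y = y * x) {z : MonoidAlgebra k A}
    (hz : InvBy R z) (a : MonoidAlgebra k A) : lev W R z a ∈ fixAlg k R R := by
  classical
  refine mem_fixAlg.2 ⟨fun x hx => ?_, fun g hg x => ?_⟩
  · by_contra h
    apply hx
    rw [coeff_lev, if_neg (fun h' => h h'.1)]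
  · rw [coeff_lev, coeff_lev, cmp_conj hc hz hg]
    have e : g * x * g⁻¹ ∈ R ↔ x ∈ R := by
      constructor
      · intro h
        have h1 := R.mul_mem (R.mul_mem (R.inv_mem hg) h) hg
        have e : g⁻¹ * (g * x * g⁻¹) * g = x := by group
        rwa [e] at h1
      · exact fun h => R.mul_mem (R.mul_mem hg h) (R.inv_mem hg)
    simp only [e]

/-- the number of `s ∈ R` with `v ∈ W s` -/
theorem card_fib [Fintype A] (hc : ∀ x ∈ W, ∀ y ∈ R, x * y = y * x) {v : A} (hv : v ∈ W ⊔ R)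
    (S : Finset A) (hS : ∀ s, s ∈ S ↔ s ∈ R ∧ v * s⁻¹ ∈ W) :
    S.card = Nat.card ↥(W ⊓ R) := by
  classical
  obtain ⟨w₀, hw₀, s₀, hs₀, rfl⟩ := Jj.mem_sup_of_commute (fun y hy z hz => (hc y hy z hz).symm) v hv
  have h1 : Nat.card ↥(W ⊓ R) = (Finset.univ.filter (fun x => x ∈ W ⊓ R)).card := by
    rw [Nat.card_eq_fintype_card, Fintype.card_subtype]
  rw [h1]
  refine Finset.card_nbij' (fun s => s * s₀⁻¹) (fun d => d * s₀) ?_ ?_ ?_ ?_
  · intro s hs
    rw [Finset.mem_coe, hS] at hs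
    rw [Finset.mem_coe, Finset.mem_filter]
    refine ⟨Finset.mem_univ _, ?_, R.mul_mem hs.1 (R.inv_mem hs₀)⟩
    have h2 := W.inv_mem (W.mul_mem (W.inv_mem hw₀) hs.2)
    have e : (w₀⁻¹ * (w₀ * s₀ * s⁻¹))⁻¹ = s * s₀⁻¹ := by group
    rwa [e] at h2
  · intro d hd
    rw [Finset.mem_coe, Finset.mem_filter] at hd
    rw [Finset.mem_coe, hS]
    refine ⟨R.mul_mem hd.2.2 hs₀, ?_⟩
    have e : w₀ * s₀ * (d * s₀)⁻¹ = w₀ * d⁻¹ := by group
    rw [e]
    exact W.mul_mem hw₀ (W.inv_mem hd.2.1)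
  · intro s _
    change s * s₀⁻¹ * s₀ = s
    group
  · intro d _
    change d * s₀ * s₀⁻¹ = d
    group

open Classical in
theorem decomp [Fintype A] (hc : ∀ x ∈ W, ∀ y ∈ R, x * y = y * x) {z : MonoidAlgebra k A}
    (hz : SuppIn (W ⊔ R) z) :
    (Nat.card ↥(W ⊓ R) : k) • z =
      ∑ a ∈ (Finset.univ.filter (fun s => s ∈ R)).image (cmp W z), a * lev W R z a := by
  ext v
  rw [coeff_sum, Finsupp.finsetSum_apply]
  have h1 : ∀ a : MonoidAlgebra k A, (a * lev W R z a).coeff v =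
      ∑ s : A, a.coeff (v * s⁻¹) * (if s ∈ R ∧ cmp W z s = a then (1 : k) else 0) := by
    intro a
    rw [coeff_mul_apply_right, Finsupp.sum_fintype _ _ (fun i => by rw [mul_zero])]
    exact Finset.sum_congr rfl fun s _ => by rw [coeff_lev]
  rw [Finset.sum_congr rfl (fun a _ => h1 a), Finset.sum_comm]
  have h2 : ∀ s : A, (∑ a ∈ (Finset.univ.filter (fun s => s ∈ R)).image (cmp W z),
      a.coeff (v * s⁻¹) * (if s ∈ R ∧ cmp W z s = a then (1 : k) else 0)) =
      if s ∈ R ∧ v * s⁻¹ ∈ W then z.coeff v else 0 := by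
    intro s
    by_cases hs : s ∈ R
    · rw [Finset.sum_eq_single (cmp W z s)]
      · rw [if_pos ⟨hs, rfl⟩, mul_one]
        by_cases hv : v * s⁻¹ ∈ W
        · rw [if_pos ⟨hs, hv⟩, coeff_cmp _ _ hv]
          congr 1
          group
        · rw [if_neg (fun h => hv h.2), coeff_cmp' _ _ hv]
      · intro b _ hb
        rw [if_neg (fun h => hb h.2.symm), mul_zero]
      · intro h
        exact absurd (Finset.mem_image_of_mem _
          (Finset.mem_filter.2 ⟨Finset.mem_univ _, hs⟩)) h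
    · rw [if_neg (fun h => hs h.1)]
      exact Finset.sum_eq_zero fun a _ => by rw [if_neg (fun h => hs h.1), mul_zero]
  rw [Finset.sum_congr rfl (fun s _ => h2 s), ← Finset.sum_filter, Finset.sum_const,
    nsmul_eq_mul]
  change (Nat.card ↥(W ⊓ R) : k) * z.coeff v = _
  by_cases hv : z.coeff v = 0
  · rw [hv, mul_zero, mul_zero]
  · rw [card_fib hc (hz v hv) _ (fun s => ?_)]
    rw [Finset.mem_filter]
    exact ⟨fun h => h.2, fun h => ⟨Finset.mem_univ _, h⟩⟩

theorem fix_le (hc : ∀ x ∈ W, ∀ y ∈ R, x * y = y * x) :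
    fixAlg k W W ≤ fixAlg k (W ⊔ R) (W ⊔ R) := by
  intro a ha
  obtain ⟨h1, h2⟩ := mem_fixAlg.1 ha
  refine mem_fixAlg.2 ⟨h1.mono le_sup_left, ?_⟩
  rw [invBy_iff_cj]
  have h3 : W ≤ Cy.cst a := fun x hx => invBy_iff_cj.1 h2 x hx
  have h4 : R ≤ Cy.cst a := by
    intro x hx
    have h5 : InvBy R a := by
      intro g hg y
      by_cases hy : y ∈ W
      · have e : g * y * g⁻¹ = y := by rw [← hc y hy g hg]; group
        rw [e]
      · have hy' : g * y * g⁻¹ ∉ W := by
          intro h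
          apply hy
          have h6 := hc _ h g hg
          have e : y = g * y * g⁻¹ := by
            calc y = g⁻¹ * (g * y * g⁻¹ * g) := by group
              _ = g⁻¹ * (g * (g * y * g⁻¹)) := by rw [h6]
              _ = g * y * g⁻¹ := by group
          rw [e]
          exact h
        have e1 : a.coeff y = 0 := by
          by_contra h
          exact hy (h1 y h)
        have e2 : a.coeff (g * y * g⁻¹) = 0 := by
          by_contra h
          exact hy' (h1 _ h)
        rw [e1, e2]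
    exact invBy_iff_cj.1 h5 x hx
  exact fun x hx => (sup_le h3 h4) hx

theorem fix_le' (hc : ∀ x ∈ W, ∀ y ∈ R, x * y = y * x) :
    fixAlg k R R ≤ fixAlg k (W ⊔ R) (W ⊔ R) := by
  rw [sup_comm]
  exact fix_le (fun x hx y hy => (hc y hy x hx).symm)

/-- the block idempotents of a product of two commuting subgroups -/
theorem isBlock_mul [IsAlgClosed k] [Fintype A] (hc : ∀ x ∈ W, ∀ y ∈ R, x * y = y * x)
    (hZ : (Nat.card ↥(W ⊓ R) : k) ≠ 0) {e f : MonoidAlgebra k A} (he : IsBlock W e)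
    (hf : IsBlock R f) (hne : e * f ≠ 0) : IsBlock (W ⊔ R) (e * f) := by
  classical
  have heV := fix_le hc he.mem
  have hfV := fix_le' hc hf.mem
  have hef : e * f = f * e := commute_of (mem_fixAlg.1 heV).1 (mem_fixAlg.1 hfV).2
  have hidem : e * f * (e * f) = e * f := by
    calc e * f * (e * f) = e * (f * e) * f := by simp only [mul_assoc]
      _ = e * e * (f * f) := by rw [← hef]; simp only [mul_assoc]
      _ = e * f := by rw [he.idem, hf.idem]
  refine ⟨(fixAlg k _ _).mul_mem heV hfV, hidem, hne, ?_⟩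
  intro g hg hgg hgef
  by_contra hcon
  push Not at hcon
  obtain ⟨hg0, hg1⟩ := hcon
  let E : fixAlg k (W ⊔ R) (W ⊔ R) := ⟨e, heV⟩
  let F : fixAlg k (W ⊔ R) (W ⊔ R) := ⟨f, hfV⟩
  let G : fixAlg k (W ⊔ R) (W ⊔ R) := ⟨g, hg⟩
  have hGG : G * G = G := Subtype.ext hgg
  have hEE : E * E = E := Subtype.ext he.idem
  have hFF : F * F = F := Subtype.ext hf.idem
  have hGE : G * (E * F) = G := Subtype.ext hgef
  have hG0 : G ≠ 0 := fun h => hg0 (congrArg Subtype.val h)
  have hG1 : E * F - G ≠ 0 := fun h => hg1 (congrArg Subtype.val (sub_eq_zero.1 h)).symm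
  have hG2 : (E * F - G) * (E * F - G) = E * F - G := by
    calc (E * F - G) * (E * F - G) = (E * E) * (F * F) - G * (E * F) - G * (E * F) + G * G := by
          ring
      _ = E * F - G := by rw [hEE, hFF, hGE, hGG]; ring
  obtain ⟨χ₁, h1⟩ := exists_char_of_idem (k := k) hG0 hGG
  obtain ⟨χ₂, h2⟩ := exists_char_of_idem (k := k) hG1 hG2
  -- the values on `e` and `f`
  have key : ∀ χ : fixAlg k (W ⊔ R) (W ⊔ R) →ₐ[k] k, χ (E * F) = 1 → χ E = 1 ∧ χ F = 1 := by
    intro χ h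
    have h3 : χ E * χ E = χ E := by rw [← map_mul, hEE]
    have h4 : χ F * χ F = χ F := by rw [← map_mul, hFF]
    rw [map_mul] at h
    have h5 : χ E ≠ 0 := left_ne_zero_of_mul (h ▸ one_ne_zero)
    have h6 : χ F ≠ 0 := right_ne_zero_of_mul (h ▸ one_ne_zero)
    exact ⟨mul_left_cancel₀ h5 (by rw [h3, mul_one]), mul_left_cancel₀ h6 (by rw [h4, mul_one])⟩
  have h3 : χ₁ (E * F) = 1 := by
    have := congrArg χ₁ hGE
    rw [map_mul, h1, one_mul] at this
    exact this
  have h4 : χ₂ G = 0 := by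
    have e1 : G * (E * F - G) = 0 := by rw [mul_sub, hGE, hGG, sub_self]
    have := congrArg χ₂ e1
    rw [map_mul, h2, mul_one, map_zero] at this
    exact this
  have h5 : χ₂ (E * F) = 1 := by
    have := h2
    rw [map_sub, h4, sub_zero] at this
    exact this
  obtain ⟨h1e, h1f⟩ := key χ₁ h3
  obtain ⟨h2e, h2f⟩ := key χ₂ h5
  -- the restrictions
  have hW : χ₁.comp (Subalgebra.inclusion (fix_le (k := k) hc)) =
      χ₂.comp (Subalgebra.inclusion (fix_le (k := k) hc)) :=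
    he.primIdem.char_unique _ _ h1e h2e
  have hR : χ₁.comp (Subalgebra.inclusion (fix_le' (k := k) hc)) =
      χ₂.comp (Subalgebra.inclusion (fix_le' (k := k) hc)) :=
    hf.primIdem.char_unique _ _ h1f h2f
  have hW' : ∀ (a : MonoidAlgebra k A) (ha : a ∈ fixAlg k W W),
      χ₁ ⟨a, fix_le hc ha⟩ = χ₂ ⟨a, fix_le hc ha⟩ := fun a ha => DFunLike.congr_fun hW ⟨a, ha⟩
  have hR' : ∀ (a : MonoidAlgebra k A) (ha : a ∈ fixAlg k R R),
      χ₁ ⟨a, fix_le' hc ha⟩ = χ₂ ⟨a, fix_le' hc ha⟩ := fun a ha => DFunLike.congr_fun hR ⟨a, ha⟩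
  obtain ⟨S, hS⟩ : ∃ S, S = (Finset.univ.filter (fun s => s ∈ R)).image (cmp W g) := ⟨_, rfl⟩
  have hd := decomp (k := k) hc (mem_fixAlg.1 hg).1
  rw [← hS] at hd
  have hi := (mem_fixAlg.1 hg).2
  have hSm : ∀ a ∈ S, a ∈ fixAlg k W W := by
    intro a ha
    rw [hS, Finset.mem_image] at ha
    obtain ⟨s, hs, rfl⟩ := ha
    exact cmp_mem hc (hi.mono le_sup_left) (Finset.mem_filter.1 hs).2
  have hlm : ∀ a, lev W R g a ∈ fixAlg k R R := lev_mem hc (hi.mono le_sup_right)
  have hd' : (Nat.card ↥(W ⊓ R) : k) • G = ∑ a : S,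
      (⟨a.1, fix_le hc (hSm a.1 a.2)⟩ : fixAlg k (W ⊔ R) (W ⊔ R)) *
        ⟨lev W R g a.1, fix_le' hc (hlm a.1)⟩ := by
    apply Subtype.ext
    rw [AddSubmonoidClass.coe_finsetSum]
    change (Nat.card ↥(W ⊓ R) : k) • g = ∑ a : S, a.1 * lev W R g a.1
    rw [hd, Finset.sum_coe_sort S (fun a => a * lev W R g a)]
  have hf1 := congrArg χ₁ hd'
  have hf2 := congrArg χ₂ hd'
  rw [map_smul, map_sum, h1] at hf1
  rw [map_smul, map_sum, h4, smul_zero] at hf2
  have hf3 : (Nat.card ↥(W ⊓ R) : k) • (1 : k) = 0 := by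
    rw [hf1, hf2]
    refine Finset.sum_congr rfl fun a _ => ?_
    rw [map_mul, map_mul, hW' _ (hSm a.1 a.2), hR' _ (hlm a.1)]
  rw [smul_eq_mul, mul_one] at hf3
  exact hZ hf3

end Pool.Agent.Lib.P0c8ca5.Ww
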