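import Mathlib
import Pool.Agent.Lib.P0c8ca5W.UbA
import Pool.Agent.Lib.P0c8ca5H.Defs
import Pool.Agent.Lib.P0c8ca5U.UntA

/-!
# Module UbB: blocks of a product of several commuting subgroups

`hd : Jj.Dec p Z V W` with `W : Fin n → Subgroup A`: `V` is the product of the pairwise commuting `W i`, direct modulo
the central `p'`-subgroup `Z`.

* `lp_isBlock`: if `cc i` is a block of `W i` for all `i` and `lp cc ≠ 0` then `lp cc` is a block of `V`.
* `exists_cc`: a block `c` of `V` is `lp cc` for blocks `cc i` of `W i` with `cc i * c = c`; the `cc i` are unique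
  (`eq_of_mul`), so they are permuted by the elements which fix `c` and permute the `W i` (`cj_cc`).
* `exists_scalar`: the elements of `Z` act on `c` and on all `cc i` as the same nonzero scalar.
-/

set_option autoImplicit false

namespace Pool.Agent.Lib.P0c8ca5.Ww

open MonoidAlgebra Ps Hh Un8

variable {p : ℕ} {k : Type*} [Field k] {A : Type*} [Group A]

/-- an element of `kW` is fixed by the elements which commute with `W` -/
theorem inv_of_comm {W R : Subgroup A} (hc : ∀ x ∈ W, ∀ y ∈ R, x * y = y * x)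
    {a : MonoidAlgebra k A} (ha : SuppIn W a) : InvBy R a := by
  intro g hg y
  by_cases hy : y ∈ W
  · have e : g * y * g⁻¹ = y := by rw [← hc y hy g hg]; group
    rw [e]
  · have hy' : g * y * g⁻¹ ∉ W := by
      intro h
      apply hy
      have h6 := hc _ h g hg
      have e : y = g * y * g⁻¹ := by
        calc y = g⁻¹ * (g * y * g⁻¹ * g) := by group
          _ = g⁻¹ * (g * (g * y * g⁻¹)) := by rw [h6]
          _ = g * y * g⁻¹ := by group
      rw [e]
      exact h
    have e1 : a.coeff y = 0 := by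
      by_contra h
      exact hy (ha y h)
    have e2 : a.coeff (g * y * g⁻¹) = 0 := by
      by_contra h
      exact hy' (ha _ h)
    rw [e1, e2]

theorem le_cst {M : Subgroup A} {a : MonoidAlgebra k A} : InvBy M a ↔ M ≤ Cy.cst a :=
  invBy_iff_cj

theorem isBlock_bot : IsBlock (⊥ : Subgroup A) (1 : MonoidAlgebra k A) := by
  refine ⟨(fixAlg k ⊥ ⊥).one_mem, one_mul 1, one_ne_zero, ?_⟩
  intro f hf hff _
  have h1 : f = f.coeff 1 • (1 : MonoidAlgebra k A) := by
    ext x
    by_cases hx : x = 1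
    · rw [hx]
      change f.coeff 1 = f.coeff 1 * (1 : MonoidAlgebra k A).coeff 1
      rw [show (1 : MonoidAlgebra k A).coeff 1 = 1 from by
        rw [MonoidAlgebra.one_def, coeff_single, Finsupp.single_eq_same], mul_one]
    · have h2 : f.coeff x = 0 := by
        by_contra h
        exact hx (Subgroup.mem_bot.1 ((mem_fixAlg.1 hf).1 x h))
      change f.coeff x = f.coeff 1 * (1 : MonoidAlgebra k A).coeff x
      rw [show (1 : MonoidAlgebra k A).coeff x = 0 from by
        rw [MonoidAlgebra.one_def, coeff_single, Finsupp.single_eq_of_ne hx], mul_zero, h2]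
  have h2 : f.coeff 1 * f.coeff 1 = f.coeff 1 := by
    have h3 : (f.coeff 1 * f.coeff 1) • (1 : MonoidAlgebra k A) =
        f.coeff 1 • (1 : MonoidAlgebra k A) := by
      conv_rhs => rw [← h1, ← hff]
      conv_rhs => rw [h1]
      rw [smul_mul_smul_comm, one_mul]
    exact smul_left_injective k (one_ne_zero : (1 : MonoidAlgebra k A) ≠ 0) h3
  rcases mul_eq_zero.1 (show f.coeff 1 * (f.coeff 1 - 1) = 0 by rw [mul_sub, mul_one, h2, sub_self])
    with h3 | h3
  · left; rw [h1, h3, zero_smul]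
  · right; rw [h1, sub_eq_zero.1 h3, one_smul]

theorem iSup_fin_succ {n : ℕ} (W : Fin (n + 1) → Subgroup A) :
    (⨆ i, W i) = W 0 ⊔ ⨆ i : Fin n, W i.succ := by
  apply le_antisymm
  · refine iSup_le fun i => ?_
    refine Fin.cases ?_ (fun j => ?_) i
    · exact le_sup_left
    · exact (le_iSup (fun j : Fin n => W j.succ) j).trans le_sup_right
  · exact sup_le (le_iSup W 0) (iSup_le fun j => le_iSup W j.succ)

/-- a nonzero product of blocks of the factors is a block -/
theorem lp_isBlock_aux [Fact p.Prime] [CharP k p] [IsAlgClosed k] [Fintype A] {Z : Subgroup A}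
    (hpr : ¬ p ∣ Nat.card Z) : ∀ {n : ℕ} (W : Fin n → Subgroup A) (cc : Fin n → MonoidAlgebra k A),
    (∀ i j, i ≠ j → ∀ x ∈ W i, ∀ y ∈ W j, x * y = y * x) →
    (∀ i, W i ⊓ (⨆ (j) (_ : j ≠ i), W j) ≤ Z) → (∀ i, IsBlock (W i) (cc i)) → lp cc ≠ 0 →
    IsBlock (⨆ i, W i) (lp cc) := by
  intro n
  induction n with
  | zero =>
    intro W cc _ _ _ _
    rw [lp_zero, iSup_of_empty]
    exact isBlock_bot
  | succ n ih =>
    intro W cc hcomm hind hb hne
    rw [lp_succ] at hne ⊢
    rw [iSup_fin_succ]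
    have h1 : IsBlock (⨆ i : Fin n, W i.succ) (lp fun i : Fin n => cc i.succ) := by
      refine ih (fun i => W i.succ) (fun i => cc i.succ) ?_ ?_ (fun i => hb i.succ)
        (right_ne_zero_of_mul hne)
      · exact fun i j hij => hcomm _ _ fun h => hij (Fin.succ_injective n h)
      · intro i
        refine le_trans (inf_le_inf_left _ ?_) (hind i.succ)
        refine iSup_le fun j => iSup_le fun hj => ?_
        exact le_iSup₂_of_le j.succ (fun h => hj (Fin.succ_injective n h)) le_rfl
    have hc : ∀ x ∈ W 0, ∀ y ∈ ⨆ i : Fin n, W i.succ, x * y = y * x := by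
      intro x hx y hy
      have h2 : (⨆ i : Fin n, W i.succ) ≤ Subgroup.centralizer ({x} : Set A) := by
        refine iSup_le fun i z hz => ?_
        rw [Subgroup.mem_centralizer_iff]
        rintro v hv
        rw [Set.mem_singleton_iff] at hv
        rw [hv]
        exact hcomm 0 i.succ (Fin.succ_ne_zero i).symm x hx z hz
      exact Subgroup.mem_centralizer_iff.1 (h2 hy) x rfl
    refine isBlock_mul hc ?_ (hb 0) h1 hne
    have h3 : W 0 ⊓ (⨆ i : Fin n, W i.succ) ≤ Z := by
      refine le_trans (inf_le_inf_left _ ?_) (hind 0)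
      exact iSup_le fun j => le_iSup₂_of_le j.succ (Fin.succ_ne_zero j) le_rfl
    intro h4
    apply hpr
    exact ((CharP.cast_eq_zero_iff k p _).1 h4).trans (Subgroup.card_dvd_of_le h3)

section

variable {Z V : Subgroup A} {n : ℕ} {W : Fin n → Subgroup A} {K : Subgroup A}
  {c : MonoidAlgebra k A}

theorem lp_isBlock [Fact p.Prime] [CharP k p] [IsAlgClosed k] [Fintype A]
    (hd : Jj.Dec p Z V W) {cc : Fin n → MonoidAlgebra k A} (hb : ∀ i, IsBlock (W i) (cc i))
    (hne : lp cc ≠ 0) : IsBlock V (lp cc) := by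
  rw [← hd.sup]
  exact lp_isBlock_aux hd.pr W cc hd.comm hd.indep hb hne

/-- `Z(k (W i)) ≤ Z(kV)` -/
theorem fix_le_V (hd : Jj.Dec p Z V W) (i : Fin n) : fixAlg k (W i) (W i) ≤ fixAlg k V V := by
  intro a ha
  obtain ⟨h1, h2⟩ := mem_fixAlg.1 ha
  refine mem_fixAlg.2 ⟨h1.mono (hd.le' i), ?_⟩
  rw [le_cst, ← hd.sup]
  refine iSup_le fun j => ?_
  rw [← le_cst]
  by_cases hij : i = j
  · rw [← hij]; exact h2
  · exact inv_of_comm (hd.comm i j hij) h1

theorem lp_mul_of {n : ℕ} (a : Fin n → MonoidAlgebra k A) (h : ∀ i, a i * c = c) :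
    lp a * c = c := by
  induction n with
  | zero => rw [lp_zero, one_mul]
  | succ n ih =>
    rw [lp_succ, mul_assoc, ih (fun i => a i.succ) (fun i => h i.succ), h 0]

/-- the block of `W i` below `c` is unique -/
theorem eq_of_mul {X : Subgroup A} (hc0 : c ≠ 0) {e e' : MonoidAlgebra k A} (he : IsBlock X e)
    (he' : IsBlock X e') (h : e * c = c) (h' : e' * c = c) : e = e' := by
  rcases he.eq_or_mul_eq_zero he' with h1 | h1
  · exact h1
  · exfalso
    apply hc0
    rw [← h, ← h', ← mul_assoc, h1, zero_mul]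

/-- (U1) `c` is the product of blocks of the factors -/
theorem exists_cc [Fact p.Prime] [CharP k p] [IsAlgClosed k] [Fintype A]
    (hd : Jj.Dec p Z V W) (hc : IsBlock V c) :
    ∃ cc : Fin n → MonoidAlgebra k A, (∀ i, IsBlock (W i) (cc i)) ∧ (∀ i, cc i * c = c) ∧
      c = lp cc := by
  have h1 : ∀ i, ∃ e, IsBlock (W i) e ∧ e * c = c := by
    intro i
    obtain ⟨e, he, hne⟩ := RedAux.exists_covered (p := p) (W i) hc.ne_zero
    have heV := fix_le_V hd i he.mem
    refine ⟨e, he, ?_⟩
    rcases hc.mul_eq heV he.idem with h | h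
    · exfalso
      apply hne
      rw [commute_of hc.suppIn (mem_fixAlg.1 heV).2, h]
    · exact h
  choose cc hb hcc using h1
  refine ⟨cc, hb, hcc, ?_⟩
  have h2 := lp_mul_of cc hcc
  have hne : lp cc ≠ 0 := by
    intro h
    rw [h, zero_mul] at h2
    exact hc.ne_zero h2.symm
  exact (eq_of_mul hc.ne_zero (lp_isBlock hd hb hne) hc h2 hc.idem).symm

/-- (U1) the blocks of the factors are permuted with the factors -/
theorem cj_cc {cc : Fin n → MonoidAlgebra k A} (hb : ∀ i, IsBlock (W i) (cc i))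
    (hcc : ∀ i, cc i * c = c) (hc0 : c ≠ 0) (hinv : InvBy K c) {g : A} (hg : g ∈ K) {i j : Fin n}
    (hij : cg g (W i) = W j) : cj g (cc i) = cc j := by
  have h1 : IsBlock (W j) (cj g (cc i)) := by
    rw [← hij]
    exact isBlock_cg (hb i) g
  refine eq_of_mul hc0 h1 (hb j) ?_ (hcc j)
  have h2 := invBy_iff_cj.1 hinv g hg
  conv_lhs => rw [← h2]
  rw [← cj_mul, hcc i, h2]

/-- (U1) `cc i` is invariant under the normalizer of `W i` in `K` -/
theorem uh_cc (hd : Jj.Dec p Z V W) {cc : Fin n → MonoidAlgebra k A}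
    (hb : ∀ i, IsBlock (W i) (cc i)) (hcc : ∀ i, cc i * c = c) (hc0 : c ≠ 0) (hVK : V ≤ K)
    (hinv : InvBy K c) (i : Fin n) :
    UH (W i) (K ⊓ Subgroup.normalizer (W i : Set A)) (cc i) where
  le := le_inf ((hd.le' i).trans hVK) Subgroup.le_normalizer
  nm := inf_le_right
  blk := hb i
  inv := by
    rw [invBy_iff_cj]
    intro g hg
    exact cj_cc hb hcc hc0 hinv hg.1 (cg_eq_self_iff.2 hg.2)

/-- a central element of order prime to `p` acts on a block as a scalar -/
theorem exists_scal [CharP k p] [IsAlgClosed k] [Fintype A] {X : Subgroup A}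
    {e : MonoidAlgebra k A} (he : IsBlock X e) {z : A} (hz : z ∈ X)
    (hzc : ∀ x ∈ X, z * x = x * z) {m : ℕ} (hm : z ^ m = 1) (hpm : ¬ p ∣ m) :
    ∃ s : k, s ≠ 0 ∧ single z 1 * e = s • e := by
  have hzm : (single z (1 : k) : MonoidAlgebra k A) ∈ fixAlg k X X := by
    constructor
    · intro x hx
      rw [coeff_single] at hx
      have h1 : x = z := by
        by_contra h
        exact hx (Finsupp.single_eq_of_ne h)
      rw [h1]
      exact hz
    · intro g hg
      change single g 1 * single z 1 = single z 1 * single g 1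
      rw [single_mul_single, single_mul_single, hzc g hg]
  obtain ⟨l, hl⟩ := he.primIdem.exists_char (k := k)
  obtain ⟨u, hu⟩ : ∃ u : fixAlg k X X, u = ⟨single z 1, hzm⟩ := ⟨_, rfl⟩
  have hum : u ^ m = 1 := by
    apply Subtype.ext
    rw [SubmonoidClass.coe_pow, hu]
    change (single z (1 : k) : MonoidAlgebra k A) ^ m = 1
    rw [single_pow, hm, one_pow]
    rfl
  have hlm : l u ^ m = 1 := by rw [← map_pow, hum, map_one]
  have hm0 : (m : k) ≠ 0 := fun h => hpm ((CharP.cast_eq_zero_iff k p m).1 h)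
  have hm1 : m ≠ 0 := fun h => hm0 (by rw [h, Nat.cast_zero])
  have hl0 : l u ≠ 0 := by
    intro h
    rw [h, zero_pow hm1] at hlm
    exact zero_ne_one hlm
  refine ⟨l u, hl0, ?_⟩
  obtain ⟨v, hv⟩ : ∃ v : fixAlg k X X, v = algebraMap k _ (l u) := ⟨_, rfl⟩
  obtain ⟨S, hS⟩ : ∃ S : fixAlg k X X, S = ∑ i ∈ Finset.range m, u ^ i * v ^ (m - 1 - i) :=
    ⟨_, rfl⟩
  have h1 : (u - v) * S = 0 := by
    have h2 := (Commute.all u v).mul_geom_sum₂ m
    rw [← hS, hum, hv, ← map_pow, hlm, map_one, sub_self, ← hv] at h2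
    exact h2
  have h3 : l S = (m : k) * l u ^ (m - 1) := by
    rw [hS, map_sum]
    have h4 : ∀ i ∈ Finset.range m, l (u ^ i * v ^ (m - 1 - i)) = l u ^ (m - 1) := by
      intro i hi
      have h5 : l v = l u := by rw [hv, AlgHom.commutes]; rfl
      rw [map_mul, map_pow, map_pow, h5, ← pow_add]
      congr 1
      have := Finset.mem_range.1 hi
      omega
    rw [Finset.sum_congr rfl h4, Finset.sum_const, Finset.card_range, nsmul_eq_mul]
  have h4 : l S ≠ 0 := by
    rw [h3]
    exact mul_ne_zero hm0 (pow_ne_zero _ hl0)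
  obtain ⟨w, hw⟩ := he.primIdem.exists_unit l hl h4
  have h5 : (u - v) * ⟨e, he.mem⟩ = 0 := by
    calc (u - v) * ⟨e, he.mem⟩ = (u - v) * (S * w * ⟨e, he.mem⟩) := by rw [hw]
      _ = ((u - v) * S) * (w * ⟨e, he.mem⟩) := by ring
      _ = 0 := by rw [h1, zero_mul]
  rw [sub_mul, sub_eq_zero] at h5
  have h6 := congrArg Subtype.val h5
  rw [hu, hv] at h6
  change single z 1 * e = algebraMap k (MonoidAlgebra k A) _ * e at h6
  rw [h6, ← Algebra.smul_def]

/-- (U2) the elements of `Z` act on `c` and on the blocks `cc i` as the same scalars -/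
theorem exists_scalar [CharP k p] [IsAlgClosed k] [Fintype A]
    (hd : Jj.Dec p Z V W) (hZV : Z ≤ V) (hc : IsBlock V c) {cc : Fin n → MonoidAlgebra k A}
    (hb : ∀ i, IsBlock (W i) (cc i)) (hcc : ∀ i, cc i * c = c) :
    ∃ l : A → k, ∀ z ∈ Z, l z ≠ 0 ∧ single z 1 * c = l z • c ∧
      ∀ i, single z 1 * cc i = l z • cc i := by
  have hpw : ∀ z ∈ Z, z ^ Nat.card Z = 1 := by
    intro z hz
    have h1 := congrArg Subtype.val (pow_card_eq_one' (x := (⟨z, hz⟩ : Z)))
    exact h1
  have h1 : ∀ z, ∃ s : k, z ∈ Z → s ≠ 0 ∧ single z 1 * c = s • c := by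
    intro z
    by_cases hz : z ∈ Z
    · obtain ⟨s, hs⟩ := exists_scal hc (hZV hz) (fun x _ => hd.zcomm hz x) (hpw z hz) hd.pr
      exact ⟨s, fun _ => hs⟩
    · exact ⟨0, fun h => absurd h hz⟩
  choose l hl using h1
  refine ⟨l, fun z hz => ⟨(hl z hz).1, (hl z hz).2, fun i => ?_⟩⟩
  obtain ⟨s, -, hs⟩ := exists_scal (hb i) (hd.le i hz) (fun x _ => hd.zcomm hz x) (hpw z hz) hd.pr
  have h2 : s • c = l z • c := by
    rw [← (hl z hz).2]
    conv_rhs => rw [← hcc i]
    rw [← mul_assoc, hs, smul_mul_assoc, hcc i]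
  have h3 : s = l z := smul_left_injective k hc.ne_zero h2
  rw [hs, h3]

end

end Pool.Agent.Lib.P0c8ca5.Ww
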