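import Pool.Agent.Lib.P0c8ca5W.Cos
import Pool.Agent.Lib.P0c8ca5U.CmJ

/-!
# The sum over cosets of `M` in terms of the sum on the level of `V`

`T1_kap`: `T1 p h.unt D b x y = (r * r) • (kap * T2 p V D c x y v)`, `r` the index of `V` in `h.unt`.
`T1_T2`: if `b` is an invariant block of `h.unt` and `p` does not divide `r` then
`T1 p h.unt D b x y = (r * r) • (τ(s) * T2 p V D c x y v)` with `s ≠ 0`.
-/

set_option autoImplicit false

namespace Pool.Agent.Lib.P0c8ca5.Cs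

open MonoidAlgebra Ps Bq Zz Hh Gg Un8

variable {p : ℕ} {k : Type*} [Field k] {A : Type*} [Group A]

theorem T1_kap [Fact p.Prime] [CharP k p] [IsAlgClosed k] [Fintype A] {V : Subgroup A}
    [hV : V.Normal] {c : MonoidAlgebra k A} (h : UH V ⊤ c) {D : Finset (Subgroup A)}
    (hD : ∀ Q ∈ D, Q ≤ V) (hp : ∀ Q ∈ D, IsPGroup p Q) {b : MonoidAlgebra k A}
    (hbM : b ∈ fixAlg k h.unt V) (hbc : b * c = b) {x y : A}
    (hg : y * x * y⁻¹ * x⁻¹ ∈ h.unt) {w v : MonoidAlgebra k A}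
    (hwv : UP V c (y * x * y⁻¹ * x⁻¹) w v) :
    T1 p h.unt D b x y = (V.relIndex h.unt * V.relIndex h.unt) •
      (kap p h.unt V c b x y w * T2 p V D c x y v) := by
  rw [T1_unt h hD hp (mem_fixAlg.1 hbM).2 hbc x y]
  congr 1
  unfold T2
  rw [Finset.mul_sum]
  apply Finset.sum_congr rfl
  intro x' hx'
  rw [Finset.mul_sum]
  apply Finset.sum_congr rfl
  intro y' hy'
  exact dl_eq h hD hp hbM hbc (Subgroup.mem_top x) (Subgroup.mem_top y) hg hwv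
    (mem_csF.1 hx') (mem_csF.1 hy')

theorem T1_T2 [Fact p.Prime] [CharP k p] [IsAlgClosed k] [Fintype A] {V : Subgroup A}
    [hV : V.Normal] {c : MonoidAlgebra k A} (h : UH V ⊤ c) {D : Finset (Subgroup A)}
    (hD : ∀ Q ∈ D, Q ≤ V) (hp : ∀ Q ∈ D, IsPGroup p Q) {b : MonoidAlgebra k A}
    (hbB : IsBlock h.unt b) (hbK : InvBy ⊤ b) (hbc : b * c = b)
    (hidx : ¬ p ∣ V.relIndex h.unt) {x y : A}
    (hg : y * x * y⁻¹ * x⁻¹ ∈ h.unt) {w v : MonoidAlgebra k A}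
    (hwv : UP V c (y * x * y⁻¹ * x⁻¹) w v) :
    ∃ s : k, s ≠ 0 ∧ T1 p h.unt D b x y = (V.relIndex h.unt * V.relIndex h.unt) •
      (WittVector.teichmuller p s * T2 p V D c x y v) := by
  obtain ⟨s, hs, hk⟩ := kap_eq h hbB hbK hbc hidx (Subgroup.mem_top x) (Subgroup.mem_top y) hg hwv
  refine ⟨s, hs, ?_⟩
  have hbM : b ∈ fixAlg k h.unt V :=
    mem_fixAlg.2 ⟨hbB.suppIn, hbB.invBy.mono h.le_unt⟩
  rw [T1_kap h hD hp hbM hbc hg hwv, hk]

end Pool.Agent.Lib.P0c8ca5.Cs
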