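import Mathlib
import Pool.Agent.Lib.P0c8ca5G.AsmE

/-!
# Almost simple sections

`AlSim T`: the group `A` is almost simple with socle `T`.
`SecSm p K E`: for every section `A` of `K` that is almost simple with socle `T` the quotient `A / T` is
p-solvable, and the image of `E` is cyclic if `A = T`.
`cyclic_of_sec`: then the p-subgroups over `E` of the almost quasi-simple groups are cyclic.
-/

set_option autoImplicit false

namespace Pool.Agent.Lib.P0c8ca5.Vc

open MonoidAlgebra Ps Bq Zz Jj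
open scoped commutatorElement

universe u v w

/-- `A` is almost simple with socle `T` -/
structure AlSim {A : Type*} [Group A] (T : Subgroup A) : Prop where
  normal : T.Normal
  ne : T ≠ ⊥
  cent : Subgroup.centralizer (T : Set A) = ⊥
  simple : ∀ N : Subgroup A, N ≤ T → T ≤ Subgroup.normalizer (N : Set A) → N = ⊥ ∨ N = T

/-- the condition on the almost simple sections -/
def SecSm (p : ℕ) (K : Type w) [Group K] (E : Subgroup K) : Prop :=
  ∀ (A : Type u) [Group A] (T : Subgroup A), AlSim T →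
    (IsSection A K → ∃ _ : T.Normal, PSolv p (A ⧸ T)) ∧
    (T = ⊤ → ∀ P : Subgroup A, PairSec P E → IsPGroup p P → IsCyclic P)

/-- an element that commutes with a perfect group modulo its centre centralizes it -/
theorem cent_of_comm {L : Type*} [Group L] {S : Subgroup L} (hS : ⁅S, S⁆ = S) {n : L}
    (hn : ∀ s ∈ S, n * s * n⁻¹ * s⁻¹ ∈ S ∧ n * s * n⁻¹ * s⁻¹ ∈ Subgroup.centralizer (S : Set L)) :
    n ∈ Subgroup.centralizer (S : Set L) := by
  have key : S ≤ Subgroup.centralizer ({n} : Set L) := by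
    rw [← hS, Subgroup.commutator_le]
    intro s hs t ht
    rw [Subgroup.mem_centralizer_singleton_iff]
    obtain ⟨z, hz⟩ : ∃ z, z = n * s * n⁻¹ * s⁻¹ := ⟨_, rfl⟩
    obtain ⟨w, hw⟩ : ∃ w, w = n * t * n⁻¹ * t⁻¹ := ⟨_, rfl⟩
    have hz1 := hn s hs
    have hw1 := hn t ht
    rw [← hz] at hz1
    rw [← hw] at hw1
    have e1 : n * s * n⁻¹ = z * s := by rw [hz]; group
    have e2 : n * t * n⁻¹ = w * t := by rw [hw]; group
    have cz : ∀ y ∈ S, y * z = z * y := fun y hy => Subgroup.mem_centralizer_iff.1 hz1.2 y hy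
    have cw : ∀ y ∈ S, y * w = w * y := fun y hy => Subgroup.mem_centralizer_iff.1 hw1.2 y hy
    have e3 : n * ⁅s, t⁆ * n⁻¹ = ⁅z * s, w * t⁆ := by
      rw [← e1, ← e2, commutatorElement_def, commutatorElement_def]
      group
    have h1 : Commute z s := (cz s hs).symm
    have h2 : Commute z t := (cz t ht).symm
    have h3 : Commute w s := (cw s hs).symm
    have h4 : Commute w t := (cw t ht).symm
    have h5 : Commute z w := (cz w hw1.1).symm
    have e4 : ⁅z * s, w * t⁆ = ⁅s, t⁆ := by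
      rw [commutatorElement_def, commutatorElement_def]
      have a1 : z * s * (w * t) = z * w * (s * t) := by
        rw [mul_assoc, ← mul_assoc s w t, ← h3.eq, mul_assoc w s t, ← mul_assoc]
      have a2 : (z * s)⁻¹ * (w * t)⁻¹ = s⁻¹ * t⁻¹ * (z * w)⁻¹ := by
        have b1 : w * t * (z * s) = z * w * (t * s) := by
          rw [mul_assoc, ← mul_assoc t z s, ← h2.eq, mul_assoc z t s, ← mul_assoc, h5.eq]
        rw [← mul_inv_rev, b1, mul_inv_rev, mul_inv_rev t s]
      have a3 : Commute (z * w) (s * t * (s⁻¹ * t⁻¹)) := by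
        refine Commute.mul_left ?_ ?_
        · exact (h1.mul_right h2).mul_right (h1.inv_right.mul_right h2.inv_right)
        · exact (h3.mul_right h4).mul_right (h3.inv_right.mul_right h4.inv_right)
      rw [mul_assoc (z * s * (w * t)), a2, a1, mul_assoc (z * w), ← mul_assoc (s * t), ← mul_assoc,
        a3.eq, mul_assoc _ (z * w), mul_inv_cancel, mul_one, ← mul_assoc]
    have e5 : n * ⁅s, t⁆ * n⁻¹ = ⁅s, t⁆ := e3.trans e4
    exact (mul_inv_eq_iff_eq_mul.1 e5).symm
  rw [Subgroup.mem_centralizer_iff]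
  intro s hs
  exact Subgroup.mem_centralizer_singleton_iff.1 (key hs)

/-- the group of automorphisms induced on a quasi-simple group -/
theorem alSim_of_qs {L : Type*} [Group L] {S N : Subgroup L} (hS : QS S) (hSN : S ≤ N)
    (hn : N ≤ Subgroup.normalizer (S : Set L)) {A : Type*} [Group A] (f : ↥N →* A)
    (hf : Function.Surjective f)
    (hker : ∀ x : ↥N, f x = 1 ↔ (x : L) ∈ Subgroup.centralizer (S : Set L)) :
    AlSim ((S.subgroupOf N).map f) := by
  have hSn : (S.subgroupOf N).Normal := by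
    refine ⟨fun x hx g => ?_⟩
    rw [Subgroup.mem_subgroupOf] at hx ⊢
    exact (Subgroup.mem_normalizer_iff.1 (hn g.2) _).1 hx
  have htriv : ∀ x ∈ S, ∀ h : x ∈ N, f ⟨x, h⟩ = 1 →
      x ∈ Subgroup.centralizer (S : Set L) := fun x _ h h1 => (hker _).1 h1
  refine ⟨hSn.map f hf, ?_, ?_, ?_⟩
  · intro h0
    apply hS.ne
    rw [← hS.perf, Subgroup.commutator_eq_bot_iff_le_centralizer]
    intro x hx
    refine htriv x hx (hSN hx) ?_
    have h1 : f ⟨x, hSN hx⟩ ∈ (S.subgroupOf N).map f :=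
      ⟨⟨x, hSN hx⟩, Subgroup.mem_subgroupOf.2 hx, rfl⟩
    rw [h0, Subgroup.mem_bot] at h1
    exact h1
  · rw [eq_bot_iff]
    intro a ha
    obtain ⟨n, rfl⟩ := hf a
    rw [Subgroup.mem_bot, hker]
    apply cent_of_comm hS.perf
    intro s hs
    have h1 : (n : L) * s * (n : L)⁻¹ ∈ S := (Subgroup.mem_normalizer_iff.1 (hn n.2) _).1 hs
    refine ⟨S.mul_mem h1 (S.inv_mem hs), ?_⟩
    have h2 := Subgroup.mem_centralizer_iff.1 ha (f ⟨s, hSN hs⟩)
      ⟨⟨s, hSN hs⟩, Subgroup.mem_subgroupOf.2 hs, rfl⟩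
    have h3 : f (n * ⟨s, hSN hs⟩ * n⁻¹ * ⟨s, hSN hs⟩⁻¹) = 1 := by
      rw [map_mul, map_mul, map_mul, map_inv, map_inv, ← h2, mul_assoc (f ⟨s, hSN hs⟩),
        mul_inv_cancel, mul_one, mul_inv_cancel]
    exact (hker _).1 h3
  · intro N' hN' hn'
    have hM : S ⊓ (N'.comap f).map N.subtype ≤ S := inf_le_left
    have hMmem : ∀ (x : L) (h : x ∈ S), x ∈ S ⊓ (N'.comap f).map N.subtype ↔
        f ⟨x, hSN h⟩ ∈ N' := by
      intro x h
      constructor
      · rintro ⟨_, ⟨y, hy, hyx⟩⟩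
        have e : (⟨x, hSN h⟩ : ↥N) = y := Subtype.ext hyx.symm
        rw [e]
        exact hy
      · intro h1
        exact ⟨h, ⟨⟨x, hSN h⟩, h1, rfl⟩⟩
    have hMn : S ≤ Subgroup.normalizer
        ((S ⊓ (N'.comap f).map N.subtype : Subgroup L) : Set L) := by
      have h0 : ∀ g ∈ S, ∀ x ∈ S ⊓ (N'.comap f).map N.subtype,
          g * x * g⁻¹ ∈ S ⊓ (N'.comap f).map N.subtype := by
        intro g hg x hx
        have hxS := hM hx
        have hgx : g * x * g⁻¹ ∈ S := S.mul_mem (S.mul_mem hg hxS) (S.inv_mem hg)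
        rw [hMmem _ hxS] at hx
        rw [hMmem _ hgx]
        have h1 : f ⟨g, hSN hg⟩ ∈ (S.subgroupOf N).map f :=
          ⟨⟨g, hSN hg⟩, Subgroup.mem_subgroupOf.2 hg, rfl⟩
        have h2 := (Subgroup.mem_normalizer_iff.1 (hn' h1) _).1 hx
        rw [← map_mul, ← map_inv, ← map_mul] at h2
        exact h2
      intro g hg
      rw [Subgroup.mem_normalizer_iff]
      intro x
      refine ⟨h0 g hg x, fun hx => ?_⟩
      have h1 := h0 g⁻¹ (S.inv_mem hg) _ hx
      have e1 : g⁻¹ * (g * x * g⁻¹) * g⁻¹⁻¹ = x := by group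
      rwa [e1] at h1
    rcases hS.qs _ hM hMn with h1 | h1
    · left
      rw [eq_bot_iff]
      intro t ht
      obtain ⟨s, hs, rfl⟩ := hN' ht
      have hs' := Subgroup.mem_subgroupOf.1 hs
      rw [Subgroup.mem_bot, hker]
      exact h1 ((hMmem _ hs').2 ht)
    · right
      refine le_antisymm hN' ?_
      rintro _ ⟨s, hs, rfl⟩
      have hs' := Subgroup.mem_subgroupOf.1 hs
      exact (hMmem _ hs').1 (h1.symm ▸ hs')

/-- the images in the quotients by subgroups that contain the centre -/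
theorem pairSec_of {L L₀ : Type*} [Group L] [Group L₀] {π : L →* L₀}
    (hπZ : π.ker ≤ Subgroup.center L) {N : Subgroup L}
    {A : Type*} [Group A] (f : ↥N →* A) (hf : Function.Surjective f)
    (hcen : ∀ (z : L) (h : z ∈ N), z ∈ Subgroup.center L → f ⟨z, h⟩ = 1) (D : Subgroup L) :
    PairSec ((D.subgroupOf N).map f) (D.map π) := by
  obtain ⟨φ, hφ⟩ := Fg.CsAux.exists_lift (π.subgroupMap N) (π.subgroupMap_surjective N) f (by
    intro x hx
    rw [MonoidHom.mem_ker] at hx ⊢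
    exact hcen x x.2 (hπZ (congrArg Subtype.val hx)))
  refine ⟨N.map π, φ, ?_, ?_⟩
  · intro a
    obtain ⟨x, rfl⟩ := hf a
    exact ⟨π.subgroupMap N x, hφ x⟩
  · rintro _ ⟨x, hx, rfl⟩
    exact ⟨π.subgroupMap N x, Subgroup.mem_subgroupOf.2 ⟨x, Subgroup.mem_subgroupOf.1 hx, rfl⟩,
      hφ x⟩

/-- a p-subgroup is contained in a normal subgroup of index prime to `p` -/
theorem le_of_not_dvd_index {p : ℕ} [Fact p.Prime] {L : Type*} [Group L]
    {N : Subgroup L} (hN : N.Normal) (hi : ¬ p ∣ N.index) {D : Subgroup L} (hD : IsPGroup p D) :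
    D ≤ N := by
  intro x hx
  obtain ⟨n, hn⟩ := hD ⟨x, hx⟩
  have hn' : x ^ p ^ n = 1 := congrArg Subtype.val hn
  have h1 : ((x : L) : L ⧸ N) ^ p ^ n = 1 := by
    rw [← QuotientGroup.mk_pow, hn']
    rfl
  have h2 : orderOf ((x : L) : L ⧸ N) ∣ p ^ n := orderOf_dvd_of_pow_eq_one h1
  have h3 : orderOf ((x : L) : L ⧸ N) ∣ N.index := orderOf_dvd_natCard _
  have h4 : Nat.Coprime (p ^ n) N.index :=
    ((Nat.Prime.coprime_iff_not_dvd (Fact.out : p.Prime)).2 hi).pow_left n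
  have h5 := orderOf_eq_one_iff.1 (Nat.eq_one_of_dvd_coprimes h4 h2 h3)
  exact (QuotientGroup.eq_one_iff (N := N) x).1 h5

/-- **The p-subgroups over `E` of the almost quasi-simple groups are cyclic** -/
theorem cyclic_of_sec {p : ℕ} [Fact p.Prime] {K : Type w} [Group K] {E : Subgroup K}
    (hE : SecSm.{u} p K E) {L : Type u} [Group L] [Finite L]
    (hcore : ∀ P : Subgroup L, P.Normal → IsPGroup p P → P = ⊥) (hL : Gg.AqsAlt p L)
    {D : Subgroup L} (hD : IsPGroup p D) (hs : Fg.CPair p D E) : IsCyclic D := by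
  obtain ⟨L₀, _, π, -, hπZ, -, hsec⟩ := hs
  obtain ⟨S, hS, h1 | h1⟩ := hL
  · obtain ⟨hSn, hC, hi⟩ := h1
    have hZN : Subgroup.center L ≤ S ⊔ Subgroup.center L := le_sup_right
    have hSN : S ≤ S ⊔ Subgroup.center L := le_sup_left
    have hNn : (S ⊔ Subgroup.center L).Normal := Subgroup.sup_normal _ _
    obtain ⟨N, hN⟩ : ∃ N, N = S ⊔ Subgroup.center L := ⟨_, rfl⟩
    rw [← hN] at hi hZN hSN hNn
    have hZn : ((Subgroup.center L).subgroupOf N).Normal := inferInstance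
    let f : ↥N →* ↥N ⧸ (Subgroup.center L).subgroupOf N :=
      QuotientGroup.mk' ((Subgroup.center L).subgroupOf N)
    have hf : Function.Surjective f := QuotientGroup.mk'_surjective _
    have hker : ∀ x : ↥N, f x = 1 ↔ (x : L) ∈ Subgroup.center L := by
      intro x
      rw [← Subgroup.mem_subgroupOf]
      exact QuotientGroup.eq_one_iff (N := (Subgroup.center L).subgroupOf N) x
    have hA := alSim_of_qs hS hSN (fun x _ => mem_norm_of_normal S x) f hf (by
      intro x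
      rw [hC]
      exact hker x)
    have htop : (S.subgroupOf N).map f = ⊤ := by
      rw [eq_top_iff]
      intro a _
      obtain ⟨⟨x, hx⟩, rfl⟩ := hf a
      have hx' : x ∈ ((S ⊔ Subgroup.center L : Subgroup L) : Set L) := by
        rw [← hN]
        exact hx
      rw [Subgroup.mul_normal] at hx'
      obtain ⟨s, hs, z, hz, hsz⟩ := hx'
      refine ⟨⟨s, hSN hs⟩, Subgroup.mem_subgroupOf.2 hs, ?_⟩
      have h2 : f ⟨z, hZN hz⟩ = 1 := (hker _).2 hz
      have h3 : (⟨x, hx⟩ : ↥N) = ⟨s, hSN hs⟩ * ⟨z, hZN hz⟩ := Subtype.ext hsz.symm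
      rw [h3, map_mul, h2, mul_one]
    have hDN : D ≤ N := le_of_not_dvd_index hNn hi hD
    have hDp : IsPGroup p ↥(D.subgroupOf N) :=
      hD.of_equiv (Subgroup.subgroupOfEquivOfLe hDN).symm
    have hcyc := (hE _ _ hA).2 htop ((D.subgroupOf N).map f)
      ((pairSec_of hπZ f hf (fun z h hz => (hker _).2 hz) D).trans hsec) (hDp.map f)
    have hZD : ∀ x ∈ D, x ∈ Subgroup.center L → x = 1 := by
      intro x hx hxZ
      have h2 : D ⊓ Subgroup.center L = ⊥ := by
        apply hcore _ ?_ (hD.to_le inf_le_left)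
        refine ⟨fun n hn g => ?_⟩
        have h3 := Subgroup.mem_center_iff.1 hn.2 g
        rw [h3, mul_inv_cancel_right]
        exact hn
      have h3 : x ∈ D ⊓ Subgroup.center L := ⟨hx, hxZ⟩
      rwa [h2, Subgroup.mem_bot] at h3
    let g : ↥D →* ↥((D.subgroupOf N).map f) :=
      (f.subgroupMap (D.subgroupOf N)).comp (Subgroup.subgroupOfEquivOfLe hDN).symm.toMonoidHom
    refine isCyclic_of_injective g ?_
    rw [injective_iff_map_eq_one]
    intro x hx
    have h2 : f ⟨x, hDN x.2⟩ = 1 := congrArg Subtype.val hx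
    exact Subtype.ext (hZD x x.2 ((hker _).1 h2))
  · exfalso
    obtain ⟨-, hps⟩ := h1
    apply hps
    obtain ⟨N, hN⟩ : ∃ N, N = Subgroup.normalizer (S : Set L) := ⟨_, rfl⟩
    obtain ⟨C, hC⟩ : ∃ C, C = Subgroup.centralizer (S : Set L) := ⟨_, rfl⟩
    have hSN : S ≤ N := by
      rw [hN]
      exact Subgroup.le_normalizer
    have hNC : ∀ g ∈ N, ∀ x ∈ C, g * x * g⁻¹ ∈ C := by
      intro g hg x hx
      rw [hC, Subgroup.mem_centralizer_iff] at hx ⊢
      intro s hs
      rw [hN] at hg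
      have h2 : g⁻¹ * s * g ∈ S := by
        rw [Subgroup.mem_normalizer_iff] at hg
        rw [hg]
        have e : g * (g⁻¹ * s * g) * g⁻¹ = s := by group
        rw [e]
        exact hs
      have h3 := hx _ h2
      have e1 : s * (g * x * g⁻¹) = g * (g⁻¹ * s * g * x) * g⁻¹ := by group
      have e2 : g * x * g⁻¹ * s = g * (x * (g⁻¹ * s * g)) * g⁻¹ := by group
      rw [e1, e2, h3]
    have hCn : (C.subgroupOf N).Normal := by
      refine ⟨fun n hn g => ?_⟩
      rw [Subgroup.mem_subgroupOf] at hn ⊢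
      exact hNC g g.2 _ hn
    let f : ↥N →* ↥N ⧸ C.subgroupOf N := QuotientGroup.mk' (C.subgroupOf N)
    have hf : Function.Surjective f := QuotientGroup.mk'_surjective _
    have hker : ∀ x : ↥N, f x = 1 ↔ (x : L) ∈ C := by
      intro x
      rw [← Subgroup.mem_subgroupOf]
      exact QuotientGroup.eq_one_iff (N := C.subgroupOf N) x
    have hZC : Subgroup.center L ≤ C := by
      rw [hC]
      exact Subgroup.center_le_centralizer _
    have hA := alSim_of_qs hS hSN hN.le f hf (by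
      intro x
      rw [← hC]
      exact hker x)
    have hsc : IsSection (↥N ⧸ C.subgroupOf N) K :=
      ((pairSec_of hπZ f hf (fun z h hz => (hker _).2 (hZC hz)) D).trans hsec).isSection
    obtain ⟨hTn, hT⟩ := (hE _ _ hA).1 hsc
    have hnn : N ≤ Subgroup.normalizer ((S ⊔ C : Subgroup L) : Set L) := by
      intro g hg
      rw [← cg_eq_self_iff, cg_sup]
      have h2 : cg g S = S := cg_eq_self_iff.2 (by rw [← hN]; exact hg)
      have h3 : cg g C = C := by
        have h4 : g ∈ Subgroup.normalizer (C : Set L) := by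
          rw [Subgroup.mem_normalizer_iff]
          intro x
          refine ⟨hNC g hg x, fun hx => ?_⟩
          have h1 := hNC g⁻¹ (N.inv_mem hg) _ hx
          have e1 : g⁻¹ * (g * x * g⁻¹) * g⁻¹⁻¹ = x := by group
          rwa [e1] at h1
        exact cg_eq_self_iff.2 h4
      rw [h2, h3]
    have hker2 : ∀ x : ↥N, ((QuotientGroup.mk' ((S.subgroupOf N).map f)).comp f) x = 1 →
        (x : L) ∈ S ⊔ C := by
      intro x hx
      have h2 : f x ∈ (S.subgroupOf N).map f :=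
        (QuotientGroup.eq_one_iff (N := (S.subgroupOf N).map f) (f x)).1 hx
      obtain ⟨s, hs, hsx⟩ := h2
      have h3 : f (s⁻¹ * x) = 1 := by rw [map_mul, map_inv, hsx, inv_mul_cancel]
      have h4 := (hker _).1 h3
      have h5 : (x : L) = s * ((s⁻¹ * x : ↥N) : L) := by
        rw [Subgroup.coe_mul, Subgroup.coe_inv, mul_inv_cancel_left]
      rw [h5]
      exact Subgroup.mul_mem_sup (Subgroup.mem_subgroupOf.1 hs) h4
    subst hN hC
    exact Yy.psolv_sec_of_hom hnn hT ((QuotientGroup.mk' ((S.subgroupOf _).map f)).comp f) hker2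

/-! ### the smallest normal subgroup with p-solvable quotient -/

theorem psolv_prod {p : ℕ} [Fact p.Prime] {X Y : Type u} [Group X] [Group Y] [Finite X] [Finite Y]
    (hX : PSolv p X) (hY : PSolv p Y) : PSolv p (X × Y) := by
  refine psolv_ext _ (X × Y) rfl (MonoidHom.fst X Y).ker ?_ ?_
  · refine hY.of_section (IsSection.of_injective
      ((MonoidHom.snd X Y).comp (MonoidHom.fst X Y).ker.subtype) ?_)
    rw [injective_iff_map_eq_one]
    rintro ⟨⟨x, y⟩, h⟩ h1
    have h2 : x = 1 := h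
    have h3 : y = 1 := h1
    subst h2 h3
    rfl
  · exact hX.of_equiv (QuotientGroup.quotientKerEquivOfSurjective (MonoidHom.fst X Y)
      Prod.fst_surjective).symm

theorem psolv_sec_inf {p : ℕ} [Fact p.Prime] {Γ : Type u} [Group Γ] [Finite Γ]
    {K M M' : Subgroup Γ} (hMn : K ≤ Subgroup.normalizer (M : Set Γ))
    (hMn' : K ≤ Subgroup.normalizer (M' : Set Γ)) (hM : PSolv p ↥(sec K M))
    (hM' : PSolv p ↥(sec K M')) : PSolv p ↥(sec K (M ⊓ M')) := by
  have hn : K ≤ Subgroup.normalizer ((M ⊓ M' : Subgroup Γ) : Set Γ) := by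
    intro x hx
    rw [← cg_eq_self_iff, cg_inf, cg_eq_self_iff.2 (hMn hx), cg_eq_self_iff.2 (hMn' hx)]
  refine Yy.psolv_sec_of_hom hn (psolv_prod hM hM')
    (((qhom hMn).codRestrict (sec K M) (fun y => qm_mem_sec _ y.2)).prod
      ((qhom hMn').codRestrict (sec K M') (fun y => qm_mem_sec _ y.2))) ?_
  intro x hx
  have h1 : x ∈ (qhom hMn).ker := congrArg Subtype.val (congrArg Prod.fst hx)
  have h2 : x ∈ (qhom hMn').ker := congrArg Subtype.val (congrArg Prod.snd hx)
  rw [qhom_ker] at h1 h2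
  exact ⟨h1, h2⟩

theorem exists_residual (p : ℕ) [Fact p.Prime] {Γ : Type u} [Group Γ] [Finite Γ]
    (K : Subgroup Γ) : ∃ M₀ : Subgroup Γ, M₀ ≤ K ∧ K ≤ Subgroup.normalizer (M₀ : Set Γ) ∧
      PSolv p ↥(sec K M₀) ∧ ∀ M : Subgroup Γ, K ≤ Subgroup.normalizer (M : Set Γ) →
        PSolv p ↥(sec K M) → M₀ ≤ M := by
  classical
  obtain ⟨M₀, ⟨h1, h2, h3⟩, h4⟩ := Set.Finite.exists_minimal
    (s := {M : Subgroup Γ | M ≤ K ∧ K ≤ Subgroup.normalizer (M : Set Γ) ∧ PSolv p ↥(sec K M)})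
    (Set.toFinite _) ⟨K, le_rfl, Subgroup.le_normalizer, Yy.psolv_sec_self p K⟩
  refine ⟨M₀, h1, h2, h3, fun M hM hMs => ?_⟩
  have h5 : M₀ ⊓ M ∈ {M : Subgroup Γ | M ≤ K ∧ K ≤ Subgroup.normalizer (M : Set Γ) ∧
      PSolv p ↥(sec K M)} := by
    refine ⟨inf_le_left.trans h1, ?_, psolv_sec_inf h2 hM h3 hMs⟩
    intro x hx
    rw [← cg_eq_self_iff, cg_inf, cg_eq_self_iff.2 (h2 hx), cg_eq_self_iff.2 (hM hx)]
  exact (h4 h5 inf_le_left).trans inf_le_right

/-! ### the condition for a subgroup `K` and a subgroup `E` of `Γ` -/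

/-- `K` has a normal subgroup `M` with `K / M` p-solvable such that `K` and `E ∩ M` satisfy `SecSm`. -/
def SecRel (p : ℕ) {Γ : Type u} [Group Γ] (K E : Subgroup Γ) : Prop :=
  ∃ M : Subgroup Γ, M ≤ K ∧ K ≤ Subgroup.normalizer (M : Set Γ) ∧ PSolv p ↥(sec K M) ∧
    SecSm.{u} p ↥K ((E ⊓ M).subgroupOf K)

/-- the defect groups over the members of the family are cyclic -/
theorem redCondA_of {p : ℕ} [Fact p.Prime] {k : Type v} [Field k] {Γ : Type u} [Group Γ]
    [Finite Γ] {K : Subgroup Γ} {𝓔 : Set (Subgroup Γ)}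
    (h : ∀ E ∈ 𝓔, Yy.CycRel p K E ∨ SecRel p K E) : Gg.RedCondA p k K 𝓔 := by
  obtain ⟨M₀, hM₀K, hM₀n, hM₀s, hmin⟩ := exists_residual p K
  refine ⟨M₀, hM₀K, hM₀n, hM₀s, ?_⟩
  intro L _ _ b hb hA hD hC
  obtain ⟨D, hD, hDc⟩ := hD
  exfalso
  apply hDc
  obtain ⟨E, hE, hs⟩ := hC D hD
  have hle : ∀ M : Subgroup Γ, K ≤ Subgroup.normalizer (M : Set Γ) → PSolv p ↥(sec K M) →
      (E ⊓ M₀).subgroupOf K ≤ (E ⊓ M).subgroupOf K := by
    intro M hM hMs x hx
    rw [Subgroup.mem_subgroupOf] at hx ⊢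
    exact ⟨hx.1, hmin M hM hMs hx.2⟩
  rcases h E hE with h1 | h1
  · obtain ⟨S, M, hSK, hMK, hSn, hMn, hS, hM, hc⟩ := h1
    exact Fg.cyclic_of_cpair
      (Fg.cycModPs_of_cycPs ⟨S, hSK, hSn, hS, hc⟩ (inf_le_right.trans hMK))
      hb.core hb.central hD.isPGroup (hs.mono (PairSec.of_le (hle M hMn hM)))
  · obtain ⟨M, hMK, hMn, hM, hsm⟩ := h1
    exact cyclic_of_sec hsm hb.core hA hD.isPGroup (hs.mono (PairSec.of_le (hle M hMn hM)))

/-- passing to an image -/
theorem SecSm.of_pairSec {p : ℕ} {K : Type w} [Group K] {E : Subgroup K} {K' : Type*} [Group K']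
    {E' : Subgroup K'} (h : SecSm.{u} p K E) (hs : PairSec E' E) : SecSm.{u} p K' E' :=
  fun A _ T hT => ⟨fun h1 => (h A T hT).1 (h1.trans hs.isSection),
    fun h1 P hP hPp => (h A T hT).2 h1 P (hP.trans hs) hPp⟩

theorem pairSec_subgroupOf {Γ : Type*} [Group Γ] {K' K : Subgroup Γ} (h : K' ≤ K)
    {P E : Subgroup Γ} (hPE : P ≤ E) : PairSec (P.subgroupOf K') (E.subgroupOf K) := by
  let ε : ↥(K'.subgroupOf K) ≃* ↥K' := Subgroup.subgroupOfEquivOfLe h
  refine ⟨K'.subgroupOf K, ε.toMonoidHom, ε.surjective, ?_⟩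
  intro x hx
  have hx' : (x : Γ) ∈ P := Subgroup.mem_subgroupOf.1 hx
  refine ⟨⟨⟨x, h x.2⟩, Subgroup.mem_subgroupOf.2 x.2⟩, ?_, rfl⟩
  exact Subgroup.mem_subgroupOf.2 (Subgroup.mem_subgroupOf.2 (hPE hx'))

/-- passing to a subgroup -/
theorem SecRel.mono {p : ℕ} {Γ : Type u} [Group Γ] {K K' E : Subgroup Γ} (h : SecRel p K E)
    (hK : K' ≤ K) : SecRel p K' E := by
  obtain ⟨M, hMK, hMn, hM, hsm⟩ := h
  refine ⟨K' ⊓ M, inf_le_left, Yy.norm_inf_left (hK.trans hMn), ?_, ?_⟩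
  · let ι : ↥K' →* ↥K := Subgroup.inclusion hK
    let f : ↥K' →* ↥(sec K M) :=
      ((qhom hMn).comp ι).codRestrict (sec K M) (fun y => qm_mem_sec _ (ι y).2)
    refine Yy.psolv_sec_of_hom (Yy.norm_inf_left (hK.trans hMn)) hM f ?_
    intro y hy
    have h1 : ι y ∈ (qhom hMn).ker := congrArg Subtype.val hy
    rw [qhom_ker] at h1
    exact Subgroup.mem_inf.2 ⟨y.2, h1⟩
  · exact hsm.of_pairSec (pairSec_subgroupOf hK (inf_le_inf_left _ inf_le_right))

/-- conjugation -/
theorem SecRel.cg {p : ℕ} {Γ : Type u} [Group Γ] {K E : Subgroup Γ} (h : SecRel p K E) (x : Γ) :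
    SecRel p (cg x K) (cg x E) := by
  obtain ⟨M, hMK, hMn, hM, hsm⟩ := h
  have hnn : ∀ T : Subgroup Γ, K ≤ Subgroup.normalizer (T : Set Γ) →
      Pool.Agent.Lib.P0c8ca5.cg x K ≤
        Subgroup.normalizer ((Pool.Agent.Lib.P0c8ca5.cg x T : Subgroup Γ) : Set Γ) := by
    intro T hT y hy
    rw [mem_cg] at hy
    have h1 := cg_eq_self_iff.2 (hT hy)
    rw [← cg_eq_self_iff, cg_cg]
    have e1 : y * x = x * (x⁻¹ * y * x) := by group
    rw [e1, ← cg_cg, h1]
  let κ : ↥(Pool.Agent.Lib.P0c8ca5.cg x K) →* ↥K :=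
    { toFun := fun y => ⟨x⁻¹ * y * x, mem_cg.1 y.2⟩
      map_one' := Subtype.ext (by
        change x⁻¹ * 1 * x = 1
        group)
      map_mul' := fun y z => Subtype.ext (by
        change x⁻¹ * (y.1 * z.1) * x = x⁻¹ * y.1 * x * (x⁻¹ * z.1 * x)
        group) }
  refine ⟨Pool.Agent.Lib.P0c8ca5.cg x M, cg_le_cg hMK, hnn M hMn, ?_, ?_⟩
  · let f : ↥(Pool.Agent.Lib.P0c8ca5.cg x K) →* ↥(sec K M) :=
      ((qhom hMn).comp κ).codRestrict (sec K M) (fun y => qm_mem_sec _ (κ y).2)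
    refine Yy.psolv_sec_of_hom (hnn M hMn) hM f ?_
    intro y hy
    have h1 : κ y ∈ (qhom hMn).ker := congrArg Subtype.val hy
    rw [qhom_ker] at h1
    exact mem_cg.2 h1
  · let κ' : ↥K →* ↥(Pool.Agent.Lib.P0c8ca5.cg x K) :=
      { toFun := fun y => ⟨x * y * x⁻¹, mem_cg.2 (by
          have e : x⁻¹ * (x * y * x⁻¹) * x = y := by group
          rw [e]
          exact y.2)⟩
        map_one' := Subtype.ext (by
          change x * 1 * x⁻¹ = 1
          group)
        map_mul' := fun y z => Subtype.ext (by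
          change x * (y.1 * z.1) * x⁻¹ = x * y.1 * x⁻¹ * (x * z.1 * x⁻¹)
          group) }
    have hκ : ∀ y, κ' (κ y) = y := by
      intro y
      apply Subtype.ext
      change x * (x⁻¹ * y.1 * x) * x⁻¹ = y.1
      group
    refine hsm.of_pairSec (PairSec.of_hom κ' (fun y => ⟨κ y, hκ y⟩) ?_)
    intro y hy
    refine ⟨κ y, ?_, hκ y⟩
    rw [Subgroup.mem_subgroupOf, ← cg_inf, mem_cg] at hy
    exact Subgroup.mem_subgroupOf.2 hy

end Pool.Agent.Lib.P0c8ca5.Vc
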