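import Mathlib
import Pool.Agent.Lib.P0c8ca5W.Vac
import Pool.Agent.Lib.P0c8ca5X.AsmF

/-!
# Simple sections

`SimSm p K E`: the images of `E` in the nonabelian simple sections of `K` are cyclic.
`cyclic_of_sim`: then the p-subgroups over `E` of the almost quasi-simple groups (`Gg.AqsN`) are cyclic.
-/

set_option autoImplicit false

namespace Pool.Agent.Lib.P0c8ca5.Vc

open MonoidAlgebra Ps Bq Zz Jj

universe u v w

/-- the p-subgroups over `E` of the nonabelian simple sections are cyclic -/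
def SimSm (p : ℕ) (K : Type w) [Group K] (E : Subgroup K) : Prop :=
  ∀ (T : Type u) [Group T] [IsSimpleGroup T], (∃ x y : T, x * y ≠ y * x) →
    ∀ P : Subgroup T, PairSec P E → IsPGroup p P → IsCyclic P

theorem AlSim.simpleGroup {A : Type*} [Group A] (h : AlSim (⊤ : Subgroup A)) :
    IsSimpleGroup A := by
  have h1 : Nontrivial A := (Subgroup.nontrivial_iff).1 ⟨⟨⊤, ⊥, h.ne⟩⟩
  refine ⟨fun N hN => ?_⟩
  exact h.simple N le_top (by rw [Subgroup.normalizer_eq_top])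

theorem AlSim.nonabelian {A : Type*} [Group A] (h : AlSim (⊤ : Subgroup A)) :
    ∃ x y : A, x * y ≠ y * x := by
  by_contra hno
  push Not at hno
  apply h.ne
  rw [eq_bot_iff, ← h.cent]
  intro x _
  rw [Subgroup.mem_centralizer_iff]
  exact fun y _ => hno y x

/-- **The p-subgroups over `E` of the almost quasi-simple groups are cyclic** -/
theorem cyclic_of_sim {p : ℕ} [Fact p.Prime] {K : Type w} [Group K] {E : Subgroup K}
    (hE : SimSm.{u} p K E) {L : Type u} [Group L] [Finite L]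
    (hcore : ∀ P : Subgroup L, P.Normal → IsPGroup p P → P = ⊥) (hL : Gg.AqsN p L)
    {D : Subgroup L} (hD : IsPGroup p D) (hs : Fg.CPair p D E) : IsCyclic D := by
  obtain ⟨L₀, _, π, -, hπZ, -, hsec⟩ := hs
  obtain ⟨S, hS, hSn, hC, hi, -, -⟩ := hL
  have hZN : Subgroup.center L ≤ S ⊔ Subgroup.center L := le_sup_right
  have hSN : S ≤ S ⊔ Subgroup.center L := le_sup_left
  have hNn : (S ⊔ Subgroup.center L).Normal := Subgroup.sup_normal _ _
  obtain ⟨N, hN⟩ : ∃ N, N = S ⊔ Subgroup.center L := ⟨_, rfl⟩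
  rw [← hN] at hi hZN hSN hNn
  have hZn : ((Subgroup.center L).subgroupOf N).Normal := inferInstance
  let f : ↥N →* ↥N ⧸ (Subgroup.center L).subgroupOf N :=
    QuotientGroup.mk' ((Subgroup.center L).subgroupOf N)
  have hf : Function.Surjective f := QuotientGroup.mk'_surjective _
  have hker : ∀ x : ↥N, f x = 1 ↔ (x : L) ∈ Subgroup.center L := by
    intro x
    rw [← Subgroup.mem_subgroupOf]
    exact QuotientGroup.eq_one_iff (N := (Subgroup.center L).subgroupOf N) x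
  have hA := alSim_of_qs hS hSN (fun x _ => mem_norm_of_normal S x) f hf (by
    intro x
    rw [hC]
    exact hker x)
  have htop : (S.subgroupOf N).map f = ⊤ := by
    rw [eq_top_iff]
    intro a _
    obtain ⟨⟨x, hx⟩, rfl⟩ := hf a
    have hx' : x ∈ ((S ⊔ Subgroup.center L : Subgroup L) : Set L) := by
      rw [← hN]
      exact hx
    rw [Subgroup.mul_normal] at hx'
    obtain ⟨s, hs, z, hz, hsz⟩ := hx'
    refine ⟨⟨s, hSN hs⟩, Subgroup.mem_subgroupOf.2 hs, ?_⟩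
    have h2 : f ⟨z, hZN hz⟩ = 1 := (hker _).2 hz
    have h3 : (⟨x, hx⟩ : ↥N) = ⟨s, hSN hs⟩ * ⟨z, hZN hz⟩ := Subtype.ext hsz.symm
    rw [h3, map_mul, h2, mul_one]
  rw [htop] at hA
  have hDN : D ≤ N := le_of_not_dvd_index hNn hi hD
  have hDp : IsPGroup p ↥(D.subgroupOf N) :=
    hD.of_equiv (Subgroup.subgroupOfEquivOfLe hDN).symm
  have := hA.simpleGroup
  have hcyc := hE _ hA.nonabelian ((D.subgroupOf N).map f)
    ((pairSec_of hπZ f hf (fun z h hz => (hker _).2 hz) D).trans hsec) (hDp.map f)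
  have hZD : ∀ x ∈ D, x ∈ Subgroup.center L → x = 1 := by
    intro x hx hxZ
    have h2 : D ⊓ Subgroup.center L = ⊥ := by
      apply hcore _ ?_ (hD.to_le inf_le_left)
      refine ⟨fun n hn g => ?_⟩
      have h3 := Subgroup.mem_center_iff.1 hn.2 g
      rw [h3, mul_inv_cancel_right]
      exact hn
    have h3 : x ∈ D ⊓ Subgroup.center L := ⟨hx, hxZ⟩
    rwa [h2, Subgroup.mem_bot] at h3
  let g : ↥D →* ↥((D.subgroupOf N).map f) :=
    (f.subgroupMap (D.subgroupOf N)).comp (Subgroup.subgroupOfEquivOfLe hDN).symm.toMonoidHom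
  refine isCyclic_of_injective g ?_
  rw [injective_iff_map_eq_one]
  intro x hx
  have h2 : f ⟨x, hDN x.2⟩ = 1 := congrArg Subtype.val hx
  exact Subtype.ext (hZD x x.2 ((hker _).1 h2))

/-! ### the condition for a subgroup `K` and a subgroup `E` of `Γ` -/

/-- `K` has a normal subgroup `M` with `K / M` p-solvable such that `K` and `E ∩ M` satisfy `SimSm`. -/
def SimRel (p : ℕ) {Γ : Type u} [Group Γ] (K E : Subgroup Γ) : Prop :=
  ∃ M : Subgroup Γ, M ≤ K ∧ K ≤ Subgroup.normalizer (M : Set Γ) ∧ PSolv p ↥(sec K M) ∧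
    SimSm.{u} p ↥K ((E ⊓ M).subgroupOf K)

/-- the defect groups over the members of the family are cyclic -/
theorem redCondN_of {p : ℕ} [Fact p.Prime] {k : Type v} [Field k] {Γ : Type u} [Group Γ]
    [Finite Γ] {K : Subgroup Γ} {𝓔 : Set (Subgroup Γ)}
    (h : ∀ E ∈ 𝓔, Yy.CycRel p K E ∨ SimRel p K E) : Gg.RedCondN p k K 𝓔 := by
  obtain ⟨M₀, hM₀K, hM₀n, hM₀s, hmin⟩ := exists_residual p K
  refine ⟨M₀, hM₀K, hM₀n, hM₀s, ?_⟩
  intro L _ _ b hb hA hD hC
  obtain ⟨D, hD, hDc⟩ := hD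
  exfalso
  apply hDc
  obtain ⟨E, hE, hs⟩ := hC D hD
  have hle : ∀ M : Subgroup Γ, K ≤ Subgroup.normalizer (M : Set Γ) → PSolv p ↥(sec K M) →
      (E ⊓ M₀).subgroupOf K ≤ (E ⊓ M).subgroupOf K := by
    intro M hM hMs x hx
    rw [Subgroup.mem_subgroupOf] at hx ⊢
    exact ⟨hx.1, hmin M hM hMs hx.2⟩
  rcases h E hE with h1 | h1
  · obtain ⟨S, M, hSK, hMK, hSn, hMn, hS, hM, hc⟩ := h1
    exact Fg.cyclic_of_cpair
      (Fg.cycModPs_of_cycPs ⟨S, hSK, hSn, hS, hc⟩ (inf_le_right.trans hMK))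
      hb.core hb.central hD.isPGroup (hs.mono (PairSec.of_le (hle M hMn hM)))
  · obtain ⟨M, hMK, hMn, hM, hsm⟩ := h1
    exact cyclic_of_sim hsm hb.core hA hD.isPGroup (hs.mono (PairSec.of_le (hle M hMn hM)))

/-- passing to an image -/
theorem SimSm.of_pairSec {p : ℕ} {K : Type w} [Group K] {E : Subgroup K} {K' : Type*} [Group K']
    {E' : Subgroup K'} (h : SimSm.{u} p K E) (hs : PairSec E' E) : SimSm.{u} p K' E' :=
  fun T _ _ hT P hP hPp => h T hT P (hP.trans hs) hPp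

/-- passing to a subgroup -/
theorem SimRel.mono {p : ℕ} {Γ : Type u} [Group Γ] {K K' E : Subgroup Γ} (h : SimRel p K E)
    (hK : K' ≤ K) : SimRel p K' E := by
  obtain ⟨M, hMK, hMn, hM, hsm⟩ := h
  refine ⟨K' ⊓ M, inf_le_left, Yy.norm_inf_left (hK.trans hMn), ?_, ?_⟩
  · let ι : ↥K' →* ↥K := Subgroup.inclusion hK
    let f : ↥K' →* ↥(sec K M) :=
      ((qhom hMn).comp ι).codRestrict (sec K M) (fun y => qm_mem_sec _ (ι y).2)
    refine Yy.psolv_sec_of_hom (Yy.norm_inf_left (hK.trans hMn)) hM f ?_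
    intro y hy
    have h1 : ι y ∈ (qhom hMn).ker := congrArg Subtype.val hy
    rw [qhom_ker] at h1
    exact Subgroup.mem_inf.2 ⟨y.2, h1⟩
  · exact hsm.of_pairSec (pairSec_subgroupOf hK (inf_le_inf_left _ inf_le_right))

/-- conjugation -/
theorem SimRel.cg {p : ℕ} {Γ : Type u} [Group Γ] {K E : Subgroup Γ} (h : SimRel p K E) (x : Γ) :
    SimRel p (cg x K) (cg x E) := by
  obtain ⟨M, hMK, hMn, hM, hsm⟩ := h
  have hnn : ∀ T : Subgroup Γ, K ≤ Subgroup.normalizer (T : Set Γ) →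
      Pool.Agent.Lib.P0c8ca5.cg x K ≤
        Subgroup.normalizer ((Pool.Agent.Lib.P0c8ca5.cg x T : Subgroup Γ) : Set Γ) := by
    intro T hT y hy
    rw [mem_cg] at hy
    have h1 := cg_eq_self_iff.2 (hT hy)
    rw [← cg_eq_self_iff, cg_cg]
    have e1 : y * x = x * (x⁻¹ * y * x) := by group
    rw [e1, ← cg_cg, h1]
  let κ : ↥(Pool.Agent.Lib.P0c8ca5.cg x K) →* ↥K :=
    { toFun := fun y => ⟨x⁻¹ * y * x, mem_cg.1 y.2⟩
      map_one' := Subtype.ext (by
        change x⁻¹ * 1 * x = 1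
        group)
      map_mul' := fun y z => Subtype.ext (by
        change x⁻¹ * (y.1 * z.1) * x = x⁻¹ * y.1 * x * (x⁻¹ * z.1 * x)
        group) }
  refine ⟨Pool.Agent.Lib.P0c8ca5.cg x M, cg_le_cg hMK, hnn M hMn, ?_, ?_⟩
  · let f : ↥(Pool.Agent.Lib.P0c8ca5.cg x K) →* ↥(sec K M) :=
      ((qhom hMn).comp κ).codRestrict (sec K M) (fun y => qm_mem_sec _ (κ y).2)
    refine Yy.psolv_sec_of_hom (hnn M hMn) hM f ?_
    intro y hy
    have h1 : κ y ∈ (qhom hMn).ker := congrArg Subtype.val hy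
    rw [qhom_ker] at h1
    exact mem_cg.2 h1
  · let κ' : ↥K →* ↥(Pool.Agent.Lib.P0c8ca5.cg x K) :=
      { toFun := fun y => ⟨x * y * x⁻¹, mem_cg.2 (by
          have e : x⁻¹ * (x * y * x⁻¹) * x = y := by group
          rw [e]
          exact y.2)⟩
        map_one' := Subtype.ext (by
          change x * 1 * x⁻¹ = 1
          group)
        map_mul' := fun y z => Subtype.ext (by
          change x * (y.1 * z.1) * x⁻¹ = x * y.1 * x⁻¹ * (x * z.1 * x⁻¹)
          group) }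
    have hκ : ∀ y, κ' (κ y) = y := by
      intro y
      apply Subtype.ext
      change x * (x⁻¹ * y.1 * x) * x⁻¹ = y.1
      group
    refine hsm.of_pairSec (PairSec.of_hom κ' (fun y => ⟨κ y, hκ y⟩) ?_)
    intro y hy
    refine ⟨κ y, ?_, hκ y⟩
    rw [Subgroup.mem_subgroupOf, ← cg_inf, mem_cg] at hy
    exact Subgroup.mem_subgroupOf.2 hy

end Pool.Agent.Lib.P0c8ca5.Vc
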