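import Mathlib
import Pool.Agent.Lib.P0c8ca5I.StF
import Pool.Agent.Lib.P0c8ca5D.BrNe
import Pool.Agent.Lib.P0c8ca5.GroupLem

/-!
# The Brauer subgroups of `stF C δ ψ X b`

`Lin.hasBr_over`: if `P'` is a p-subgroup of `G` with `Br_P'(stF b) ≠ 0` then there is a p-subgroup `P` of `A` with `Br_P(b) ≠ 0`
and with the same image in `A / C` as `P'`.

Proof.  Let `t` in `C_G(P')` with a nonzero coefficient of `stF b`, and `L / C` the image of `P'`, `L = C S` with a p-group `S`.
The element `b` is the sum of its restrictions to the orbits of `C` (conjugation).  The coefficients at `t` of their images under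
`stF` are invariant under `S`, so the coefficient of `stF b` is the sum over the orbits that are fixed by `S`.  So there is a fixed
orbit of an element `z` with `b(z) ≠ 0`, and so `L = C C_L(z) = C P` with a Sylow subgroup `P` of `C_L(z)`.
-/

set_option autoImplicit false

namespace Pool.Agent.Lib.P0c8ca5.Ii

open MonoidAlgebra Ps Bq Zz Gg Dz.DBrNeAux

variable {p : ℕ} {k : Type*} [Field k] {A G : Type*} [Group A] [Group G]

/-- the orbit of `x` under the conjugation with the elements of `C` -/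
def orb (C : Subgroup A) (x : A) : Set A := {y | ∃ c ∈ C, c * x * c⁻¹ = y}

theorem mem_orb {C : Subgroup A} {x y : A} : y ∈ orb C x ↔ ∃ c ∈ C, c * x * c⁻¹ = y := Iff.rfl

theorem mem_orb_self (C : Subgroup A) (x : A) : x ∈ orb C x :=
  ⟨1, C.one_mem, by group⟩

theorem orb_eq {C : Subgroup A} {x y : A} (h : y ∈ orb C x) : orb C x = orb C y := by
  obtain ⟨c, hc, rfl⟩ := h
  ext w
  constructor
  · rintro ⟨d, hd, rfl⟩
    exact ⟨d * c⁻¹, C.mul_mem hd (C.inv_mem hc), by group⟩
  · rintro ⟨d, hd, rfl⟩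
    exact ⟨d * c, C.mul_mem hd hc, by group⟩

theorem cjS_orb {C : Subgroup A} [C.Normal] {S : Subgroup A} (y : S) (x : A) :
    cjS S y (orb C x) = orb C ((y : A) * x * (y : A)⁻¹) := by
  ext w
  change w ∈ (fun t => (y : A) * t * (y : A)⁻¹) '' orb C x ↔ _
  rw [Set.mem_image]
  constructor
  · rintro ⟨t, ⟨c, hc, rfl⟩, rfl⟩
    refine ⟨(y : A) * c * (y : A)⁻¹, Subgroup.Normal.conj_mem inferInstance c hc _, ?_⟩
    group
  · rintro ⟨c, hc, rfl⟩
    refine ⟨(y : A)⁻¹ * c * y * x * ((y : A)⁻¹ * c * y)⁻¹, ⟨_, ?_, rfl⟩, ?_⟩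
    · have h1 := Subgroup.Normal.conj_mem (H := C) inferInstance c hc (y : A)⁻¹
      rwa [inv_inv] at h1
    · group

open Classical in
/-- the sum over the orbits -/
theorem sum_orb [Fintype A] (C : Subgroup A) (c : MonoidAlgebra k A) :
    ∑ S : Set A, (if ∃ z, S = orb C z then resS S c else 0) = c := by
  classical
  ext w
  have h1 : (∑ S : Set A, (if ∃ z, S = orb C z then resS S c else 0)).coeff w
      = ∑ S : Set A, (if ∃ z, S = orb C z then resS S c else 0).coeff w := by
    induction (Finset.univ : Finset (Set A)) using Finset.induction_on with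
    | empty => simp
    | insert a s ha ih => rw [Finset.sum_insert ha, Finset.sum_insert ha, coeff_add, Finsupp.add_apply, ih]
  rw [h1, Finset.sum_eq_single (orb C w)]
  · rw [if_pos ⟨w, rfl⟩, coeff_resS_of_mem]
    exact mem_orb_self C w
  · intro S _ hS
    by_cases h2 : ∃ z, S = orb C z
    · rw [if_pos h2]
      obtain ⟨z, rfl⟩ := h2
      rw [coeff_resS_of_notMem]
      intro h3
      exact hS (orb_eq h3)
    · rw [if_neg h2]
      rfl
  · intro h2
    exact absurd (Finset.mem_univ _) h2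

theorem mem_orb_conj {C : Subgroup A} {x y c : A} (hc : c ∈ C) :
    c * y * c⁻¹ ∈ orb C x ↔ y ∈ orb C x := by
  constructor
  · intro h
    rw [orb_eq h]
    exact ⟨c⁻¹, C.inv_mem hc, by group⟩
  · intro h
    rw [orb_eq h]
    exact ⟨c, hc, rfl⟩

theorem resS_orb_inv {C : Subgroup A} {b : MonoidAlgebra k A} (hb : InvBy C b) (x : A) :
    InvBy C (resS (orb C x) b) := by
  intro c hc z
  by_cases hz : z ∈ orb C x
  · rw [coeff_resS_of_mem _ hz, coeff_resS_of_mem _ ((mem_orb_conj hc).2 hz), hb c hc]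
  · rw [coeff_resS_of_notMem _ hz, coeff_resS_of_notMem _ (fun h => hz ((mem_orb_conj hc).1 h))]

theorem if_orb_inv {C : Subgroup A} {b : MonoidAlgebra k A} (hb : InvBy C b) (S : Set A)
    [Decidable (∃ z, S = orb C z)] : InvBy C (if ∃ z, S = orb C z then resS S b else 0) := by
  split_ifs with h
  · obtain ⟨z, rfl⟩ := h
    exact resS_orb_inv hb z
  · intro c _ z
    rfl

theorem mem_normalizer_inf' {Q R : Subgroup A} {x : A}
    (hQ : x ∈ Subgroup.normalizer (Q : Set A)) (hR : x ∈ Subgroup.normalizer (R : Set A)) :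
    x ∈ Subgroup.normalizer ((Q ⊓ R : Subgroup A) : Set A) := by
  rw [Subgroup.mem_normalizer_iff] at *
  intro y
  constructor
  · exact fun hy => ⟨(hQ y).1 hy.1, (hR y).1 hy.2⟩
  · exact fun hy => ⟨(hQ y).2 hy.1, (hR y).2 hy.2⟩

section

variable {C : Subgroup A} [C.Normal] {n : ℕ} {δ : Rp k C n} {ψ : G →* A ⧸ C}
  {X : G → A → ((Fin n → k) ≃ₗ[k] (Fin n → k))}

theorem opS_add [Finite A] (f g : MonoidAlgebra k A) (x : A) (v : Fin n → k) :
    opS C δ (f + g) x v = opS C δ f x v + opS C δ g x v := by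
  have : Fintype C := Fintype.ofFinite C
  rw [opS_apply, opS_apply, opS_apply, ← Finset.sum_add_distrib]
  apply Finset.sum_congr rfl
  intro c _
  rw [coeff_add, Finsupp.add_apply, add_smul]

theorem Lin.be_zero [IsAlgClosed k] [Finite A] (h : Lin p C δ ψ X) (t : G) :
    be C δ ψ X (0 : MonoidAlgebra k A) t = 0 := by
  obtain ⟨x, hx⟩ := exists_rep ψ t
  have : Fintype C := Fintype.ofFinite C
  refine h.be_eq (fun c _ z => rfl) hx fun v => ?_
  rw [opS_apply, zero_smul]
  apply Finset.sum_eq_zero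
  intro c _
  have e : (0 : MonoidAlgebra k A).coeff (x * (c : A)) = 0 := rfl
  rw [e, zero_smul]

theorem Lin.be_add [IsAlgClosed k] [Finite A] (h : Lin p C δ ψ X) {f g : MonoidAlgebra k A}
    (hf : InvBy C f) (hg : InvBy C g) (hfg : InvBy C (f + g)) (t : G) :
    be C δ ψ X (f + g) t = be C δ ψ X f t + be C δ ψ X g t := by
  obtain ⟨x, hx⟩ := exists_rep ψ t
  refine h.be_eq hfg hx fun v => ?_
  rw [opS_add, h.be_spec hf hx, h.be_spec hg hx, add_smul]

theorem inv_add {L : Subgroup A} {f g : MonoidAlgebra k A} (hf : InvBy L f) (hg : InvBy L g) :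
    InvBy L (f + g) := by
  intro c hc z
  rw [coeff_add, Finsupp.add_apply, Finsupp.add_apply, hf c hc, hg c hc]

theorem inv_sum {L : Subgroup A} {ι : Type*} {F : ι → MonoidAlgebra k A}
    (hF : ∀ i, InvBy L (F i)) (s : Finset ι) : InvBy L (∑ i ∈ s, F i) := by
  classical
  induction s using Finset.induction_on with
  | empty => rw [Finset.sum_empty]; exact fun c _ z => rfl
  | insert a s ha ih => rw [Finset.sum_insert ha]; exact inv_add (hF a) ih

theorem Lin.be_sum [IsAlgClosed k] [Finite A] (h : Lin p C δ ψ X) {ι : Type*}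
    {F : ι → MonoidAlgebra k A} (hF : ∀ i, InvBy C (F i)) (s : Finset ι) (t : G) :
    be C δ ψ X (∑ i ∈ s, F i) t = ∑ i ∈ s, be C δ ψ X (F i) t := by
  classical
  induction s using Finset.induction_on with
  | empty => rw [Finset.sum_empty, Finset.sum_empty, h.be_zero]
  | insert a s ha ih =>
    rw [Finset.sum_insert ha, Finset.sum_insert ha, h.be_add (hF a) (inv_sum hF s)
      (inv_add (hF a) (inv_sum hF s)), ih]

/-- equivariance -/
theorem Lin.be_cj [IsAlgClosed k] [Finite A] (h : Lin p C δ ψ X) {f f' : MonoidAlgebra k A}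
    (hf : InvBy C f) (hf' : InvBy C f') {g : G} {y : A} (hgy : ψ g = (y : A ⧸ C))
    (hff : ∀ z, f'.coeff (y * z * y⁻¹) = f.coeff z) (t : G) :
    be C δ ψ X f' (g * t * g⁻¹) = be C δ ψ X f t := by
  obtain ⟨x, hx⟩ := exists_rep ψ t
  have : Fintype C := Fintype.ofFinite C
  refine h.be_eq hf' (t := g * t * g⁻¹) (x := y * x * y⁻¹)
    (by rw [map_mul, map_mul, map_inv, hgy, hx]; rfl) (fun v => ?_)
  have h1 : opS C δ f' (y * x * y⁻¹) v = X g y (opS C δ f x ((X g y).symm v)) := by
    rw [opS_apply, opS_apply, map_sum]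
    have hm : ∀ c : C, y⁻¹ * c * y ∈ C := fun c => by
      have h1 := Subgroup.Normal.conj_mem (H := C) inferInstance (c : A) c.2 y⁻¹
      rwa [inv_inv] at h1
    have hm' : ∀ c : C, y * c * y⁻¹ ∈ C :=
      fun c => Subgroup.Normal.conj_mem (H := C) inferInstance (c : A) c.2 y
    refine Fintype.sum_bijective (fun c : C => (⟨y⁻¹ * c * y, hm c⟩ : C)) ?_ _ _ (fun c => ?_)
    · constructor
      · intro c c' h2
        have h3 := congrArg Subtype.val h2
        apply Subtype.ext
        simpa using h3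
      · intro c
        refine ⟨⟨y * c * y⁻¹, hm' c⟩, Subtype.ext ?_⟩
        change y⁻¹ * (y * c * y⁻¹) * y = c
        group
    · rw [map_smul, h.itw g y hgy ⟨y⁻¹ * c * y, hm c⟩ c (by
          change (c : A) = y * (y⁻¹ * c * y) * y⁻¹
          group), LinearEquiv.apply_symm_apply]
      congr 1
      rw [← hff (x * (y⁻¹ * c * y))]
      congr 1
      group
  rw [h1, h.be_spec hf hx, map_smul]
  congr 1
  apply (X (g * t * g⁻¹) (y * x * y⁻¹)).injective
  rw [LinearEquiv.apply_symm_apply, h.conj hgy hx, LinearEquiv.symm_apply_apply,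
    LinearEquiv.apply_symm_apply, LinearEquiv.apply_symm_apply]

/-- the Brauer subgroups of `stF b` are under Brauer subgroups of `b` -/
theorem Lin.hasBr_over [Fact p.Prime] [CharP k p] [IsAlgClosed k] [Fintype A] [Finite G]
    (h : Lin p C δ ψ X) {b : MonoidAlgebra k A} (hb : InvBy ⊤ b) {P' : Subgroup G}
    (hP' : IsPGroup p P') (hbr : HasBr P' (stF C δ ψ X b)) :
    ∃ P : Subgroup A, IsPGroup p P ∧ HasBr P b ∧
      P.map (QuotientGroup.mk' C) = P'.map ψ := by
  classical
  obtain ⟨t, htP, ht⟩ := hbr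
  have hbC : InvBy C b := hb.mono le_top
  have hbe : be C δ ψ X b t ≠ 0 := by
    intro h0
    apply ht
    rw [coeff_stF, h0, mul_zero]
  obtain ⟨L, hL⟩ : ∃ L : Subgroup A, L = (P'.map ψ).comap (QuotientGroup.mk' C) := ⟨_, rfl⟩
  have hmL : ∀ x, x ∈ L ↔ ∃ t' ∈ P', ψ t' = (x : A ⧸ C) := by
    intro x
    rw [hL, Subgroup.mem_comap, Subgroup.mem_map]
    rfl
  have hCL : C ≤ L := by
    intro c hc
    rw [hmL]
    exact ⟨1, P'.one_mem, by rw [map_one]; exact ((QuotientGroup.eq_one_iff c).2 hc).symm⟩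
  have hpow : ∀ x ∈ L, ∃ m : ℕ, x ^ p ^ m ∈ C := by
    intro x hx
    obtain ⟨t', ht', hx'⟩ := (hmL x).1 hx
    obtain ⟨m, hm⟩ := hP' ⟨t', ht'⟩
    have hm' : t' ^ p ^ m = 1 := congrArg Subtype.val hm
    refine ⟨m, ?_⟩
    rw [← QuotientGroup.eq_one_iff, QuotientGroup.mk_pow, ← hx', ← map_pow, hm', map_one]
  have hn : ∀ H : Subgroup A, H ≤ Subgroup.normalizer (C : Set A) := fun H => by
    rw [Subgroup.normalizer_eq_top]
    exact le_top
  obtain ⟨S, hS⟩ := exists_isSyl (p := p) L
  have hCS : C ⊔ S = L := hS.sup_eq hCL (hn L) hpow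
  let D : Set A → MonoidAlgebra k A := fun O => if ∃ z, O = orb C z then resS O b else 0
  have hDi : ∀ O, InvBy C (D O) := fun O => if_orb_inv hbC O
  let F : Set A → k := fun O => be C δ ψ X (D O) t
  have hinvf : ∀ (y : S) (O : Set A), F (cjS S y O) = F O := by
    intro y O
    obtain ⟨t', ht', hy⟩ := (hmL _).1 (hS.le y.2)
    have htt : t' * t * t'⁻¹ = t := by
      have h1 := Subgroup.mem_centralizer_iff.1 htP t' ht'
      rw [h1]
      group
    have h2 : ∀ z, (D (cjS S y O)).coeff ((y : A) * z * (y : A)⁻¹) = (D O).coeff z := by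
      intro z
      by_cases hO : ∃ z, O = orb C z
      · obtain ⟨w, rfl⟩ := hO
        have h3 : ∃ u, cjS S y (orb C w) = orb C u := ⟨_, cjS_orb y w⟩
        have e1 : D (cjS S y (orb C w)) = resS (cjS S y (orb C w)) b := if_pos h3
        have e2 : D (orb C w) = resS (orb C w) b := if_pos ⟨w, rfl⟩
        rw [e1, e2]
        have h4 : (y : A) * z * (y : A)⁻¹ ∈ cjS S y (orb C w) ↔ z ∈ orb C w := by
          change (y : A) * z * (y : A)⁻¹ ∈ (fun t => (y : A) * t * (y : A)⁻¹) '' orb C w ↔ _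
          rw [Set.mem_image]
          constructor
          · rintro ⟨u, hu, hu'⟩
            have h5 : (y : A) * u * (y : A)⁻¹ = (y : A) * z * (y : A)⁻¹ := hu'
            have h6 : u = z := by
              have h7 := mul_right_cancel h5
              exact mul_left_cancel h7
            rwa [← h6]
          · intro hz
            exact ⟨z, hz, rfl⟩
        by_cases hz : z ∈ orb C w
        · rw [coeff_resS_of_mem _ hz, coeff_resS_of_mem _ (h4.2 hz),
            hb (y : A) (Subgroup.mem_top _)]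
        · rw [coeff_resS_of_notMem _ hz, coeff_resS_of_notMem _ (fun h => hz (h4.1 h))]
      · have h3 : ¬ ∃ u, cjS S y O = orb C u := by
          rintro ⟨w, hw⟩
          apply hO
          have h4 : cjS S y⁻¹ (cjS S y O) = O := by
            rw [← Equiv.Perm.mul_apply, ← map_mul, inv_mul_cancel, map_one]
            rfl
          rw [hw, cjS_orb] at h4
          exact ⟨_, h4.symm⟩
        have e1 : D (cjS S y O) = 0 := if_neg h3
        have e2 : D O = 0 := if_neg hO
        rw [e1, e2]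
        rfl
    have h5 := h.be_cj (hDi O) (hDi (cjS S y O)) hy h2 t
    rw [htt] at h5
    exact h5
  have hsum := sum_eq_sum_fixed hS.isPGroup (cjS S) F hinvf
    (Finset.univ.filter (fun O => ∀ y, cjS S y O = O))
    (fun x => by rw [Finset.mem_filter]; exact ⟨fun hx => hx.2, fun hx => ⟨Finset.mem_univ _, hx⟩⟩)
  have htot : ∑ O : Set A, F O = be C δ ψ X b t := by
    have h1 := h.be_sum hDi Finset.univ t
    have h2 : ∑ O : Set A, D O = b := sum_orb C b
    rw [h2] at h1
    exact h1.symm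
  rw [htot] at hsum
  rw [hsum] at hbe
  obtain ⟨O, hO, hFO⟩ := Finset.exists_ne_zero_of_sum_ne_zero hbe
  have hfix := (Finset.mem_filter.1 hO).2
  have hDO : D O ≠ 0 := by
    intro h0
    apply hFO
    show be C δ ψ X (D O) t = 0
    rw [h0, h.be_zero]
  have hOz : ∃ z, O = orb C z := by
    by_contra h0
    exact hDO (if_neg h0)
  obtain ⟨w, rfl⟩ := hOz
  have e2 : D (orb C w) = resS (orb C w) b := if_pos ⟨w, rfl⟩
  obtain ⟨z, hz, hbz⟩ : ∃ z ∈ orb C w, b.coeff z ≠ 0 := by
    by_contra h0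
    apply hDO
    rw [e2]
    ext z
    by_cases hz : z ∈ orb C w
    · rw [coeff_resS_of_mem _ hz]
      by_contra h1
      exact h0 ⟨z, hz, h1⟩
    · rw [coeff_resS_of_notMem _ hz]
      rfl
  rw [orb_eq hz] at hfix
  obtain ⟨H, hH⟩ : ∃ H : Subgroup A, H = L ⊓ Subgroup.centralizer ({z} : Set A) := ⟨_, rfl⟩
  have hHL : H ≤ L := by rw [hH]; exact inf_le_left
  have hCH : L ≤ C ⊔ H := by
    rw [← hCS]
    refine sup_le le_sup_left fun s hs => ?_
    have h1 := hfix ⟨s, hs⟩
    rw [cjS_orb] at h1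
    have h2 : s * z * s⁻¹ ∈ orb C z := by
      rw [← h1]
      exact mem_orb_self C _
    obtain ⟨c, hc, hcz⟩ := h2
    have h3 : c⁻¹ * s ∈ H := by
      rw [hH]
      refine Subgroup.mem_inf.2 ⟨L.mul_mem (L.inv_mem (hCL hc)) (hS.le hs), ?_⟩
      rw [Subgroup.mem_centralizer_iff]
      rintro u hu
      rw [Set.mem_singleton_iff] at hu
      rw [hu]
      calc z * (c⁻¹ * s) = c⁻¹ * (c * z * c⁻¹) * s := by group
        _ = c⁻¹ * (s * z * s⁻¹) * s := by rw [hcz]
        _ = c⁻¹ * s * z := by group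
    have e3 : s = c * (c⁻¹ * s) := by group
    rw [e3]
    exact Subgroup.mul_mem _ ((le_sup_left : C ≤ _) hc) ((le_sup_right : H ≤ _) h3)
  obtain ⟨P, hP⟩ := exists_isSyl (p := p) H
  have hPH : (C ⊓ H) ⊔ P = H := by
    refine hP.sup_eq inf_le_right ?_ ?_
    · intro x hx
      exact mem_normalizer_inf' (hn H hx) (Subgroup.le_normalizer hx)
    · intro x hx
      obtain ⟨m, hm⟩ := hpow x (hHL hx)
      exact ⟨m, hm, H.pow_mem hx _⟩
  refine ⟨P, hP.isPGroup, ⟨z, ?_, hbz⟩, ?_⟩
  · rw [Subgroup.mem_centralizer_iff]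
    intro u hu
    have h1 := hP.le hu
    rw [hH] at h1
    exact (Subgroup.mem_centralizer_iff.1 h1.2 z rfl).symm
  · apply le_antisymm
    · rintro _ ⟨x, hx, rfl⟩
      obtain ⟨t', ht', hx'⟩ := (hmL x).1 (hHL (hP.le hx))
      exact ⟨t', ht', hx'⟩
    · rintro _ ⟨t', ht', rfl⟩
      obtain ⟨x, hx⟩ := exists_rep ψ t'
      have hxL : x ∈ L := (hmL x).2 ⟨t', ht', hx⟩
      have h1 : L ≤ C ⊔ P := by
        refine hCH.trans (sup_le le_sup_left ?_)
        rw [← hPH]
        exact sup_le (inf_le_left.trans le_sup_left) le_sup_right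
      have h2 := h1 hxL
      rw [Subgroup.mem_sup_of_normal_left] at h2
      obtain ⟨c, hc, u, hu, rfl⟩ := h2
      refine ⟨u, hu, ?_⟩
      rw [hx]
      show ((u : A) : A ⧸ C) = ((c * u : A) : A ⧸ C)
      rw [QuotientGroup.mk_mul, (QuotientGroup.eq_one_iff c).2 hc, one_mul]

end

end Pool.Agent.Lib.P0c8ca5.Ii
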