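import Pool.Agent.Lib.P0c8ca5W.SumN

/-!
# The product formula for elements that normalize all factors
-/

set_option autoImplicit false

namespace Pool.Agent.Lib.P0c8ca5.Hh

open MonoidAlgebra Ps Bq Gg Un8

variable {p : ℕ} {k : Type*} [Field k] {A : Type*} [Group A] {Z V : Subgroup A}
  {c : MonoidAlgebra k A}

theorem T2_prod [Fact p.Prime] [CharP k p] [IsAlgClosed k] [Fintype A] {n : ℕ}
    {W : Fin n → Subgroup A} {cc : Fin n → MonoidAlgebra k A} {l : A → k} {x y : A}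
    (hd : Jj.Dec p Z V W) (_ : V.Normal) (uh : UH V ⊤ c)
    (hx : ∀ i, x ∈ Subgroup.normalizer (W i : Set A))
    (hy : ∀ i, y ∈ Subgroup.normalizer (W i : Set A)) (hcb : ∀ i, IsBlock (W i) (cc i))
    (hc : c = lp cc) (hz : ∀ i, ∀ z ∈ Z, single z (1 : k) * cc i = l z • cc i)
    (hcj : ∀ (g : A) (i j : Fin n), cg g (W i) = W j → P0c8ca5.cj g (cc i) = cc j)
    {w w' : MonoidAlgebra k A} (hw : UP V c (y * x * y⁻¹ * x⁻¹)⁻¹ w w')
    {wi wi' : Fin n → MonoidAlgebra k A}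
    (hwi : ∀ i, UP (W i) (cc i) (y * x * y⁻¹ * x⁻¹)⁻¹ (wi i) (wi' i)) :
    ∃ s : k, s ≠ 0 ∧ ((Nat.card Z : WittVector p k) ^ (n - 1)) ^ 2 *
        T2 p V (Hh.PD p V W) c x y w =
      WittVector.teichmuller p s * ∏ i, T2 p (W i) (famAll p (W i)) (cc i) x y (wi i) := by
  refine Cs.T2_prod' hd uh ⟨hd.sup, hd.comm, hcb, hc⟩ (fun i => ?_) hz hx hy hw hwi
  exact ⟨Subgroup.le_normalizer, le_rfl, hcb i,
    invBy_iff_cj.2 fun g hg => hcj g i i (cg_eq_self_iff.2 hg)⟩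

end Pool.Agent.Lib.P0c8ca5.Hh
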