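import Mathlib
import Pool.Agent.Lib.P0c8ca5W.Vac
import Pool.Agent.Lib.P0c8ca5G.Fin
import Pool.Agent.Lib.P0c8ca5Y.LcR4

/-!
# Navarro's equality: conditions on the almost simple sections
-/

set_option autoImplicit false

namespace Pool.Agent.Lib.P0c8ca5.Vc

open MonoidAlgebra Ps Bq Zz Yy

universe u v w

variable {p : ℕ} {k : Type v} [Field k]

/-- **Navarro's equality**, general form -/
theorem navarro_S_rel [Fact p.Prime] [CharP k p] [IsAlgClosed k]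
    {A : Type u} [Group A] [Fintype A] {G H : Subgroup A} (hn : G.Normal) (hGH : G ≤ H)
    (hp : ∀ x : A, ∃ n : ℕ, x ^ p ^ n ∈ G) {e : MonoidAlgebra k A}
    (he : IsBlock G e) (hinv : InvBy ⊤ e)
    (hfix : ∀ Q : Subgroup A, Q ≤ H → IsPGroup p Q → G ⊔ Q = H → Radical p H Q →
      ∀ E, IsDefectGroup p ⊤ e E → Q ≤ E →
        CycRel p (G ⊓ Subgroup.normalizer (Q : Set A)) E ∨
        SecRel p (G ⊓ Subgroup.normalizer (Q : Set A)) E) :
    NavarroEq p G H e := by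
  apply Ps.navarro_loc_rad hn hGH hp he hinv
  intro Q hQH hQp hGQ hrad hQE K hCK hKN c hsub hcen hcC hcinv hcc
  refine weq_redCond4 hQp hKN hCK hsub hcen hcC hcinv hcc
    ((redCondA_of ?_).red (Gg.stepA p k) (Gg.stepB p k))
  rintro E ⟨hE, hQE'⟩
  exact hfix Q hQH hQp hGQ hrad E hE hQE'

/-- **One defect group** -/
theorem navarro_mixS [Fact p.Prime] [CharP k p] [IsAlgClosed k]
    {A : Type u} [Group A] [Fintype A] {G : Subgroup A} [hn : G.Normal]
    (hp : ∀ x : A, ∃ n : ℕ, x ^ p ^ n ∈ G) {e : MonoidAlgebra k A}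
    (he : IsBlock G e) (hinv : InvBy ⊤ e) {E : Subgroup A} (hE : IsDefectGroup p ⊤ e E)
    {V : Subgroup A} [hV : V.Normal] (hVs : PSolv p ↥V) (hVG : V ≤ G)
    {H : Subgroup A} (hGH : G ≤ H)
    (Sp : Subgroup A → Prop) (hSp : ∀ (x : A) (S : Subgroup A), Sp S → Sp (cg x S))
    (hSH : ∀ S : Subgroup A, G ⊔ S = H → Sp S)
    (hloc : ∀ Q ≤ E, Sp Q → Radical p (G ⊔ Q) Q →
      (CycRel p (G ⊓ Subgroup.normalizer (Q : Set A)) E ∨
        SecRel p (G ⊓ Subgroup.normalizer (Q : Set A)) E) ∨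
      ∀ S ≤ Q, G ⊔ S = G ⊔ Q → FixV p G E V S) : NavarroEq p G H e := by
  classical
  have hnG : (⊤ : Subgroup A) ≤ Subgroup.normalizer (G : Set A) := fun x _ =>
    mem_norm_of_normal G x
  have heT : IsBlock (⊤ : Subgroup A) e := isBlock_up' le_top hnG (fun x _ => hp x) he hinv
  have hcc : ∀ (x : A) (S : Subgroup A), cg x (cg x⁻¹ S) = S := by
    intro x S
    rw [cg_cg, mul_inv_cancel, cg_one]
  apply navarro_S_rel hn hGH hp he hinv
  intro Q hQH hQp hGQ hrad E' hE' hQE'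
  have hrad' : Radical p (G ⊔ Q) Q := by rwa [hGQ]
  have hQs := hSH Q hGQ
  obtain ⟨x, rfl⟩ := Rk.defect_conj heT hE hE'
  have h3 : cg x⁻¹ Q ≤ E := by
    have := cg_le_cg (g := x⁻¹) hQE'
    rwa [cg_cg, inv_mul_cancel, cg_one] at this
  have h4 : Radical p (G ⊔ cg x⁻¹ Q) (cg x⁻¹ Q) := by
    have h5 := hrad'.cg x⁻¹
    rwa [cg_sup, cg_normal] at h5
  have hN : Subgroup.normalizer (Q : Set A)
      = cg x (Subgroup.normalizer ((cg x⁻¹ Q : Subgroup A) : Set A)) := by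
    ext z
    rw [mem_cg, ← cg_eq_self_iff, ← cg_eq_self_iff, cg_cg]
    have e1 : x⁻¹ * z * x * x⁻¹ = x⁻¹ * z := by group
    have e2 : cg (x⁻¹ * z) Q = cg x⁻¹ (cg z Q) := by rw [cg_cg]
    rw [e1, e2]
    constructor
    · intro h1
      rw [h1]
    · intro h1
      have h2 := congrArg (cg x) h1
      rwa [hcc, hcc] at h2
  have hGN : G ⊓ Subgroup.normalizer (Q : Set A)
      = cg x (G ⊓ Subgroup.normalizer ((cg x⁻¹ Q : Subgroup A) : Set A)) := by
    rw [cg_inf, cg_normal, ← hN]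
  rcases hloc _ h3 (hSp _ _ hQs) h4 with (h5 | h5) | h5
  · have h6 := h5.cg x
    rw [← hGN] at h6
    exact Or.inl h6
  · have h6 := h5.cg x
    rw [← hGN] at h6
    exact Or.inr h6
  · refine Or.inl (cycRel_of_fixV hVs hVG hE'.isPGroup hQE' ?_)
    intro S hS hSs
    have h8 : G ⊔ cg x⁻¹ S = G ⊔ cg x⁻¹ Q := by
      have h9 := congrArg (cg x⁻¹) hSs
      rwa [cg_sup, cg_sup, cg_normal] at h9
    have h7 := (h5 (cg x⁻¹ S) (cg_le_cg hS) h8).cg x
    rwa [hcc] at h7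

end Pool.Agent.Lib.P0c8ca5.Vc
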